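import Pool.Agent.Lib.MP_361a6f_ag.FL.EM.DefsM
import Pool.Agent.Lib.MP_361a6f_ag.FL.E5.DefsX

/-!
# Theorem EM in coordinates: the statements of the theorem, of fullness and of the assembly
-/

open Filter Topology

namespace Pool.Agent.Lib.MP_361a6f_ag.FL.E

/-- a minimal nonzero stable subspace -/
def MinStab {I Λ : Type} [Fintype I] [DecidableEq I] (D : Dat I Λ)
    (At : (L : ℕ) → Ten I L → Prop) (Γ : Set (Matrix I I ℂ)) (U : Submodule ℂ (I → ℂ)) : Prop :=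
  U ≠ ⊥ ∧ StabU D At Γ U ∧
    ∀ W : Submodule ℂ (I → ℂ), W ≤ U → W ≠ ⊥ → StabU D At Γ W → W = U

/-- the set `Γ` is the whole stabiliser of the members of the system -/
def Full {I Λ : Type} [Fintype I] [DecidableEq I] (D : Dat I Λ)
    (At : (L : ℕ) → Ten I L → Prop) (Γ : Set (Matrix I I ℂ)) : Prop :=
  ∀ x, IsG D x → (∀ L u, At L u → gT x u = u) → x ∈ Γ

/-- Row FUL1 (helper48): at a high level the stable subspaces are stable under the stabiliser. -/
def Ful1Statement : Prop :=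
  ∀ {I Λ : Type} [Fintype I] [DecidableEq I] [DecidableEq Λ] (D : Dat I Λ)
    (At Bt : (L : ℕ) → Ten I L → Prop) (l : I → ℂ) (Γ : Set (Matrix I I ℂ))
    {β : Type} [Fintype β] (lb : β → ℕ) (b : Tup I lb), CSys D At Bt l Γ lb b → Full D At Γ →
    ∃ m0 : ℕ, ∀ m, m0 ≤ m → ∀ {ι : Type} [Fintype ι] (len : ι → ℕ)
      (t s : Tup I len) (x : Matrix I I ℂ) (k : I → ℂ), LvlP D At l m len t s x k →
      ∀ U, StabU D At Γ U → ∀ A ∈ stab D s, ∀ v, x.mulVec v ∈ U → x.mulVec (A.mulVec v) ∈ U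

/-- THEOREM EM in coordinates. -/
def ThmMStatement : Prop :=
  ∀ {I Λ : Type} [Fintype I] [DecidableEq I] [DecidableEq Λ] (D : Dat I Λ)
    (At Bt : (L : ℕ) → Ten I L → Prop) (l : I → ℂ) (Γ : Set (Matrix I I ℂ))
    {β : Type} [Fintype β] (lb : β → ℕ) (b : Tup I lb), CSys D At Bt l Γ lb b → FData D Bt l →
    Full D At Γ →
    (∀ U : Submodule ℂ (I → ℂ), StabU D At Γ U →
      (∀ v ∈ U, ∀ w ∈ U, dotProduct v ((Psi D).mulVec w) = 0) → U = ⊥) →
    Few6 (MinStab D At Γ) → ∀ (L : ℕ) (u : Ten I L), u ∈ Submodule.span ℝ {u | At L u} → u ≠ 0 →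
      ∃ r : ℝ, 0 < r ∧ psiT D u u = (r : ℂ)

/-- Row WM: the assembly. -/
def WMStatement : Prop :=
  W1XStatement → W2Statement → R11MStatement → Ful1Statement → P2Statement → P3Statement →
    G4Statement → G4bStatement → ThmMStatement

end Pool.Agent.Lib.MP_361a6f_ag.FL.E
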