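import Pool.Agent.Lib.MP_361a6f_ag.FL.E11.Em

/-!
# Theorem EM: the counting lemma inside the pieces with the bound `32`
-/

open scoped InnerProductSpace

namespace Pool.Agent.Lib.MP_361a6f_ag.FL.E11

/-- Four orthogonal roots with sum `2 T`: the dimension of the piece is at least `32`. -/
def Par4 {E : Type*} [NormedAddCommGroup E] [InnerProductSpace ℝ E] {I : Type*} (T : I → E)
    (Φ : Set E) (pd : I → ℕ) : Prop :=
  ∀ l, ∀ N : Finset E, N.card = 4 → (∀ b ∈ N, b ∈ Φ) →
    (∀ b ∈ N, ∀ c ∈ N, b ≠ c → ⟪b, c⟫_ℝ = 0 ∧ b + c ∉ Φ) → T l + T l = ∑ b ∈ N, b → 32 ≤ pd l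

/-- The counting lemma: in a word of weight zero with at least six letters in different classes,
after moves, two pieces have dimension at least `8` or one has dimension at least `32`. -/
def LemmaEM32Statement.{u, v} : Prop :=
  ∀ {E : Type u} [NormedAddCommGroup E] [InnerProductSpace ℝ E] {I : Type v} [Finite I]
    {T : I → E} {Φ : Set E} {W : I → Set E} {pd : I → ℕ}, RootSit0 T Φ → PieceSit T Φ W pd →
    Par4 T Φ pd → ∀ {L : ℕ} (l : Fin L → I), 6 ≤ L → ∑ a, T (l a) = 0 →
    (∀ a b, a ≠ b → T (l a) - T (l b) ∉ AddSubgroup.closure Φ) →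
    ∃ l' : Fin L → I, ∑ a, T (l' a) = 0 ∧
      (∀ a, T (l' a) - T (l a) ∈ AddSubgroup.closure Φ) ∧
      ((∃ a b, a ≠ b ∧ 8 ≤ pd (l' a) ∧ 8 ≤ pd (l' b)) ∨ ∃ a, 32 ≤ pd (l' a))

open EM in
/-- **The counting lemma inside the pieces.** -/
theorem lemmaEM32.{u, v} (hL2 : L2Statement.{u}) : LemmaEM32Statement.{u, v} := by
  classical
  intro E _ _ I _ T Φ W pd H hW h4 L l₀ hL hsum₀ hdist₀
  obtain ⟨l, hsum, hcl, hmin⟩ := step1 H l₀ hsum₀
  refine ⟨l, hsum, hcl, ?_⟩
  set Q := AddSubgroup.closure Φ with hQ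
  have hdist : ∀ a b, a ≠ b → T (l a) - T (l b) ∉ Q := by
    intro a b hab hm
    refine hdist₀ a b hab ?_
    have : T (l₀ a) - T (l₀ b) = -(T (l a) - T (l₀ a)) + (T (l a) - T (l b))
        + (T (l b) - T (l₀ b)) := by abel
    rw [this]
    exact Q.add_mem (Q.add_mem (Q.neg_mem (hcl a)) hm) (hcl b)
  by_cases hbig : ∃ a b, a ≠ b ∧ 8 ≤ pd (l a) ∧ 8 ≤ pd (l b)
  · exact Or.inl hbig
  right
  push Not at hbig
  -- all pieces but one are small
  obtain ⟨z, hz⟩ : ∃ z, ∀ a, a ≠ z → pd (l a) < 8 := by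
    by_cases hb : ∃ z, 8 ≤ pd (l z)
    · obtain ⟨z, hz⟩ := hb
      exact ⟨z, fun a ha => hbig z a (Ne.symm ha) hz⟩
    · push Not at hb
      exact ⟨⟨0, by omega⟩, fun a _ => hb a⟩
  have hB : ∀ a, a ≠ z → T (l a) = 0 ∨ T (l a) + T (l a) ∈ Φ := fun a ha =>
    step2 H hW (hL2 Φ H.zero H.neg H.add) (fun x hx => (le_abs_self _).trans (hmin a x hx))
      (hz a ha)
  set N : Finset (Fin L) := Finset.univ.filter (fun a => a ≠ z ∧ T (l a) ≠ 0) with hN
  have hNmem : ∀ a, a ∈ N ↔ a ≠ z ∧ T (l a) ≠ 0 := fun a => by simp [hN]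
  have hNcard : 4 ≤ N.card := by
    set Z : Finset (Fin L) := Finset.univ.filter (fun a => T (l a) = 0) with hZ
    have hZ1 : Z.card ≤ 1 := by
      rw [Finset.card_le_one]
      intro a ha b hb
      by_contra hab
      rw [hZ, Finset.mem_filter] at ha hb
      refine hdist a b hab ?_
      rw [ha.2, hb.2, sub_self]
      exact Q.zero_mem
    have hsub : (Finset.univ : Finset (Fin L)) ⊆ insert z (Z ∪ N) := by
      intro a _
      by_cases h1 : a = z
      · simp [h1]
      · by_cases h2 : T (l a) = 0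
        · simp [hZ, h2]
        · refine Finset.mem_insert_of_mem (Finset.mem_union_right _ ((hNmem a).2 ⟨h1, h2⟩))
    have h1 := Finset.card_le_card hsub
    have h2 := Finset.card_insert_le z (Z ∪ N)
    have h3 := Finset.card_union_le Z N
    rw [Finset.card_univ, Fintype.card_fin] at h1
    omega
  set r : Fin L → E := fun a => T (l a) + T (l a) with hr
  have hrΦ : ∀ a ∈ N, r a ∈ Φ := by
    intro a ha
    have := (hNmem a).1 ha
    rcases hB a this.1 with h | h
    · exact absurd h this.2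
    · exact h
  have hr0 : ∀ a ∈ N, r a ≠ 0 := by
    intro a ha h0
    exact H.zero (h0 ▸ hrΦ a ha)
  have horth : ∀ a ∈ N, ∀ b ∈ N, a ≠ b → ⟪r a, r b⟫_ℝ = 0 := by
    intro a ha b hb hab
    obtain ⟨n, hn⟩ := H.int (l a) (r b) (hrΦ b hb)
    obtain ⟨n', hn'⟩ := H.int (l b) (r a) (hrΦ a ha)
    have e1 : 2 * ⟪T (l a), r b⟫_ℝ = ⟪r a, r b⟫_ℝ := by
      simp only [hr]
      rw [inner_add_left]
      ring
    have e2 : 2 * ⟪T (l b), r a⟫_ℝ = ⟪r a, r b⟫_ℝ := by
      rw [real_inner_comm (r b) (r a)]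
      simp only [hr]
      rw [inner_add_left (T (l b)) (T (l b))]
      ring
    have m1 := hmin a (r b) (hrΦ b hb)
    have m2 := hmin b (r a) (hrΦ a ha)
    rw [e1] at hn m1
    rw [e2] at hn' m2
    rcases orth (hr0 a ha) (hr0 b hb) hn hn' m1 m2 with h | h | h
    · exact h
    · exfalso
      refine hdist a b hab ?_
      have : (2 : ℝ) • (T (l a) - T (l b)) = 0 := by
        rw [two_smul]
        have h' : T (l a) + T (l a) = T (l b) + T (l b) := h
        have : T (l a) - T (l b) + (T (l a) - T (l b)) = T (l a) + T (l a) -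
          (T (l b) + T (l b)) := by abel
        rw [this, h', sub_self]
      rw [(smul_eq_zero.1 this).resolve_left two_ne_zero]
      exact Q.zero_mem
    · exfalso
      refine hdist a b hab ?_
      have h1 : (2 : ℝ) • (T (l a) + T (l b)) = 0 := by
        rw [two_smul]
        have h' : T (l a) + T (l a) = -(T (l b) + T (l b)) := h
        have : T (l a) + T (l b) + (T (l a) + T (l b)) = T (l a) + T (l a) +
          (T (l b) + T (l b)) := by abel
        rw [this, h', neg_add_cancel]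
      have h2 := (smul_eq_zero.1 h1).resolve_left two_ne_zero
      have h3 : T (l a) - T (l b) = -(T (l b) + T (l b)) + (T (l a) + T (l b)) := by abel
      rw [h3, h2, add_zero]
      exact Q.neg_mem (H.two _)
  -- the weight of `z`
  have hTz : T (l z) + T (l z) = -∑ a ∈ N, r a := by
    have h1 : ∑ a ∈ Finset.univ.erase z, T (l a) = ∑ a ∈ N, T (l a) := by
      symm
      refine Finset.sum_subset ?_ ?_
      · intro a ha
        exact Finset.mem_erase.2 ⟨((hNmem a).1 ha).1, Finset.mem_univ a⟩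
      · intro a ha hna
        by_contra h0
        exact hna ((hNmem a).2 ⟨(Finset.mem_erase.1 ha).1, h0⟩)
    have h2 : T (l z) + ∑ a ∈ N, T (l a) = 0 := by
      rw [← h1, Finset.add_sum_erase _ (fun a => T (l a)) (Finset.mem_univ z), hsum]
    have h3 : ∑ a ∈ N, r a = ∑ a ∈ N, T (l a) + ∑ a ∈ N, T (l a) := by
      rw [← Finset.sum_add_distrib]
    rw [h3, eq_neg_iff_add_eq_zero]
    have : T (l z) + T (l z) + (∑ a ∈ N, T (l a) + ∑ a ∈ N, T (l a)) =
      (T (l z) + ∑ a ∈ N, T (l a)) + (T (l z) + ∑ a ∈ N, T (l a)) := by abel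
    rw [this, h2, add_zero]
  have hsumr : ∀ A ⊆ N, ∀ b ∈ N, ⟪∑ a ∈ A, r a, r b⟫_ℝ = if b ∈ A then ⟪r b, r b⟫_ℝ else 0 := by
    intro A hA b hb
    rw [sum_inner]
    by_cases hbA : b ∈ A
    · rw [if_pos hbA]
      refine Finset.sum_eq_single_of_mem b hbA (fun a ha hab => horth a (hA ha) b hb hab)
    · rw [if_neg hbA]
      refine Finset.sum_eq_zero (fun a ha => horth a (hA ha) b hb ?_)
      rintro rfl
      exact hbA ha
  have hD : ∀ A ⊆ N, T (l z) + ∑ a ∈ A, r a ∈ W (l z) := by
    intro A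
    induction A using Finset.induction_on with
    | empty =>
      intro _
      rw [Finset.sum_empty, add_zero]
      exact hW.self (l z)
    | insert b A hb ih =>
      intro hA
      have hm := ih (fun a ha => hA (Finset.mem_insert_of_mem ha))
      have hbN : b ∈ N := hA (Finset.mem_insert_self b A)
      have hpos : 0 < ⟪T (l z) + ∑ a ∈ A, r a, -r b⟫_ℝ := by
        have h1 : ⟪T (l z) + T (l z), r b⟫_ℝ = -⟪r b, r b⟫_ℝ := by
          rw [hTz, inner_neg_left, hsumr N (Finset.Subset.refl _) b hbN, if_pos hbN]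
        have h2 : ⟪∑ a ∈ A, r a, r b⟫_ℝ = 0 := by
          rw [hsumr A (fun a ha => hA (Finset.mem_insert_of_mem ha)) b hbN, if_neg hb]
        rw [inner_neg_right, inner_add_left, h2]
        rw [inner_add_left] at h1
        have := real_inner_self_pos.2 (hr0 b hbN)
        linarith
      have h3 := hW.mov (l z) _ hm (-r b) (H.neg _ (hrΦ b hbN)) hpos
      rw [Finset.sum_insert hb]
      have h4 : T (l z) + (r b + ∑ a ∈ A, r a) = T (l z) + ∑ a ∈ A, r a - -r b := by abel
      rw [h4]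
      exact h3
  have hinj : Set.InjOn (fun A => T (l z) + ∑ a ∈ A, r a) (N.powerset : Set (Finset (Fin L))) := by
    intro A hA B hB' hAB
    rw [Finset.mem_coe, Finset.mem_powerset] at hA hB'
    have h1 : ∑ a ∈ A, r a = ∑ a ∈ B, r a := add_left_cancel hAB
    have key : ∀ b ∈ N, (b ∈ A ↔ b ∈ B) := by
      intro b hb
      have e1 := hsumr A hA b hb
      have e2 := hsumr B hB' b hb
      rw [h1, e2] at e1
      have p := (real_inner_self_pos.2 (hr0 b hb)).ne'
      by_cases c1 : b ∈ A <;> by_cases c2 : b ∈ B <;> simp_all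
    ext b
    constructor
    · intro h; exact (key b (hA h)).1 h
    · intro h; exact (key b (hB' h)).2 h
  refine ⟨z, ?_⟩
  have h1 := hW.card (l z) (N.powerset.image fun A => T (l z) + ∑ a ∈ A, r a) (by
    intro v hv
    obtain ⟨A, hA, rfl⟩ := Finset.mem_image.1 hv
    exact hD A (Finset.mem_powerset.1 hA))
  rw [Finset.card_image_of_injOn hinj, Finset.card_powerset] at h1
  rcases Nat.lt_or_ge 4 N.card with h5 | h5
  · calc 32 = 2 ^ 5 := by norm_num
      _ ≤ 2 ^ N.card := Nat.pow_le_pow_right (by norm_num) h5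
      _ ≤ _ := h1
  · have h6 : N.card = 4 := le_antisymm h5 hNcard
    have hrinj : Set.InjOn (fun a => -r a) (N : Set (Fin L)) := by
      intro a ha b hb hab
      by_contra hne
      have e1 := horth a ha b hb hne
      have e2 : r a = r b := neg_injective hab
      rw [e2] at e1
      exact (real_inner_self_pos.2 (hr0 b hb)).ne' e1
    refine h4 (l z) (N.image fun a => -r a) ?_ ?_ ?_ ?_
    · rw [Finset.card_image_of_injOn hrinj, h6]
    · intro b hb
      obtain ⟨a, ha, rfl⟩ := Finset.mem_image.1 hb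
      exact H.neg _ (hrΦ a ha)
    · intro b hb c hc hbc
      obtain ⟨a, ha, rfl⟩ := Finset.mem_image.1 hb
      obtain ⟨a', ha', rfl⟩ := Finset.mem_image.1 hc
      have hne : a ≠ a' := fun h => hbc (by rw [h])
      refine ⟨by rw [inner_neg_neg]; exact horth a ha a' ha' hne, fun hmem => ?_⟩
      have e0 : r a + r a' ∈ Φ := by
        have := H.neg _ hmem
        rwa [← neg_add, neg_neg] at this
      obtain ⟨n, hn⟩ := H.int (l a) _ e0
      have e1 : 2 * ⟪T (l a), r a + r a'⟫_ℝ = ⟪r a, r a⟫_ℝ := by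
        have e2 : 2 * ⟪T (l a), r a + r a'⟫_ℝ = ⟪r a, r a + r a'⟫_ℝ := by
          simp only [hr]
          rw [inner_add_left (T (l a)) (T (l a))]
          ring
        rw [e2, inner_add_right, horth a ha a' ha' hne, add_zero]
      have e3 : ⟪r a + r a', r a + r a'⟫_ℝ = ⟪r a, r a⟫_ℝ + ⟪r a', r a'⟫_ℝ := by
        rw [real_inner_add_add_self, horth a ha a' ha' hne]
        ring
      rw [e1, e3] at hn
      have p1 := real_inner_self_pos.2 (hr0 a ha)
      have p2 := real_inner_self_pos.2 (hr0 a' ha')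
      rcases le_or_gt n 0 with hn0 | hn0
      · have hn1 : (n : ℝ) ≤ 0 := by exact_mod_cast hn0
        nlinarith
      · have hn1 : (1 : ℝ) ≤ n := by exact_mod_cast hn0
        nlinarith
    · rw [hTz, Finset.sum_image hrinj, Finset.sum_neg_distrib]

end Pool.Agent.Lib.MP_361a6f_ag.FL.E11
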