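import Pool.Agent.Lib.MP_361a6f_ag.FL.E.K2

/-!
# Theorem EM: stable subspaces are stable under the Lie algebra of the stabiliser

`StabU` (stable under the endomorphisms, finitely many images under the symmetries) is the same as
stability under the endomorphisms and the Lie algebra of the stabiliser of the tuple of a
sufficiently high level, if all symmetries are allowed.
-/

set_option autoImplicit false
set_option linter.unusedSectionVars false

open Filter Topology

namespace Pool.Agent.Lib.MP_361a6f_ag.FL.E.Ful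

variable {I Λ : Type} [Fintype I] [DecidableEq I] [DecidableEq Λ] {D : Dat I Λ}
  {At : (L : ℕ) → Ten I L → Prop} {Γ : Set (Matrix I I ℂ)}

/-- the matrices that kill the members of length at most `m` -/
def KM (At : (L : ℕ) → Ten I L → Prop) (m : ℕ) : Submodule ℂ (Matrix I I ℂ) where
  carrier := {A | ∀ L, L ≤ m → ∀ u, At L u → aT A u = 0}
  add_mem' {A B} hA hB L hL u hu := by
    rw [alg1.add_aT, hA L hL u hu, hB L hL u hu, add_zero]
  zero_mem' L _ u _ := by
    have h := alg1.smul_aT 0 (0 : Matrix I I ℂ) u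
    rwa [zero_smul, zero_smul] at h
  smul_mem' c A hA L hL u hu := by
    rw [alg1.smul_aT, hA L hL u hu, smul_zero]

theorem mem_KM {m : ℕ} {A : Matrix I I ℂ} :
    A ∈ KM At m ↔ ∀ L, L ≤ m → ∀ u, At L u → aT A u = 0 := Iff.rfl

/-- the levels stabilise -/
theorem exists_level (At : (L : ℕ) → Ten I L → Prop) : ∃ m0 : ℕ, ∀ A : Matrix I I ℂ,
    A ∈ KM At m0 → ∀ L u, At L u → aT A u = 0 := by
  let f : ℕ →o (Submodule ℂ (Matrix I I ℂ))ᵒᵈ :=
    ⟨fun m => OrderDual.toDual (KM At m), fun a b hab A hA L hL u hu =>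
      hA L (hL.trans hab) u hu⟩
  obtain ⟨m0, h⟩ := IsArtinian.monotone_stabilizes f
  refine ⟨m0, fun A hA L u hu => ?_⟩
  have h1 : KM At m0 = KM At (max m0 L) := congrArg OrderDual.ofDual (h _ (le_max_left m0 L))
  rw [h1] at hA
  exact hA L (le_max_right m0 L) u hu

/-- the exponential of a matrix that kills a tensor fixes it -/
theorem gT_exp_eq {A : Matrix I I ℂ} {L : ℕ} {u : Ten I L} (h : aT A u = 0) :
    gT (NormedSpace.exp A) u = u := by
  have h1 := alg1.gT_exp A u
  have h0 : aT A (0 : Ten I L) = 0 := by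
    have h := alg1.aT_smul A 0 (0 : Ten I L)
    rwa [zero_smul, zero_smul] at h
  have h2 : ∀ n : ℕ, n ≠ 0 → ((n.factorial : ℂ)⁻¹) • (aT A)^[n] u = 0 := by
    intro n hn
    obtain ⟨n, rfl⟩ := Nat.exists_eq_succ_of_ne_zero hn
    rw [Function.iterate_succ_apply, h, Function.iterate_fixed h0, smul_zero]
  have h3 := hasSum_single (f := fun n : ℕ => ((n.factorial : ℂ)⁻¹) • (aT A)^[n] u) 0 h2
  have h4 := h1.unique h3
  rw [h4]
  simp

/-- a subspace with finitely many images under the exponentials `exp (t A)`, `t ∈ ℝ`, is stable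
under `A` -/
theorem stable_of_exp {A : Matrix I I ℂ} {U : Submodule ℂ (I → ℂ)}
    (hfin : {U' : Submodule ℂ (I → ℂ) | ∃ t : ℂ,
      U' = U.map (Matrix.toLin' (NormedSpace.exp (t • A)))}.Finite) :
    ∀ v ∈ U, A.mulVec v ∈ U := by
  classical
  have hmul : ∀ a b : ℂ, NormedSpace.exp ((a + b) • A) =
      NormedSpace.exp (a • A) * NormedSpace.exp (b • A) := by
    intro a b
    rw [add_smul]
    exact Matrix.exp_add_of_commute _ _ ((Commute.refl A).smul_left a |>.smul_right b)
  have hmap : ∀ a b : ℂ, (U.map (Matrix.toLin' (NormedSpace.exp (b • A)))).map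
      (Matrix.toLin' (NormedSpace.exp (a • A))) =
      U.map (Matrix.toLin' (NormedSpace.exp ((a + b) • A))) := by
    intro a b
    rw [← Submodule.map_comp, ← Matrix.toLin'_mul, hmul]
  set M := hfin.toFinset.card with hM
  -- for every `n` there is `1 ≤ j ≤ M` with `exp ((j / n) A) U = U`
  have key : ∀ n : ℕ, ∃ j : ℕ, 1 ≤ j ∧ j ≤ M ∧
      U.map (Matrix.toLin' (NormedSpace.exp ((((j : ℝ) / (n + 1) : ℝ) : ℂ) • A))) = U := by
    intro n
    let g : ℕ → Submodule ℂ (I → ℂ) := fun i =>
      U.map (Matrix.toLin' (NormedSpace.exp ((((i : ℝ) / (n + 1) : ℝ) : ℂ) • A)))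
    have hg : ∀ i ∈ Finset.range (M + 1), g i ∈ hfin.toFinset := by
      intro i _
      rw [Set.Finite.mem_toFinset]
      exact ⟨_, rfl⟩
    obtain ⟨i, hi, j, hj, hij, h⟩ := Finset.exists_ne_map_eq_of_card_lt_of_maps_to
      (s := Finset.range (M + 1)) (t := hfin.toFinset) (by rw [Finset.card_range]; omega)
      (f := g) hg
    wlog hlt : i < j generalizing i j
    · exact this j hj i hi hij.symm h.symm (by omega)
    refine ⟨j - i, by omega, ?_, ?_⟩
    · have := Finset.mem_range.1 hj
      omega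
    · have h1 : g j = U.map (Matrix.toLin' (NormedSpace.exp
          (((((i : ℝ) / (n + 1) : ℝ) : ℂ) + ((((j - i : ℕ) : ℝ) / (n + 1) : ℝ) : ℂ)) • A))) := by
        show U.map _ = U.map _
        congr 4
        rw [← Complex.ofReal_add, ← add_div]
        congr 2
        push_cast [Nat.cast_sub hlt.le]
        ring
      have h2 := h1
      rw [← hmap] at h2
      have h3 : g i = U.map (Matrix.toLin' (NormedSpace.exp ((((i : ℝ) / (n + 1) : ℝ) : ℂ) • A))) :=
        rfl
      rw [← h, h3] at h2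
      have hinj : Function.Injective
          (Matrix.toLin' (NormedSpace.exp ((((i : ℝ) / (n + 1) : ℝ) : ℂ) • A))) := by
        refine Function.LeftInverse.injective
          (g := Matrix.toLin' (NormedSpace.exp ((-(((i : ℝ) / (n + 1) : ℝ) : ℂ)) • A))) ?_
        intro v
        rw [← LinearMap.comp_apply, ← Matrix.toLin'_mul, ← hmul, neg_add_cancel, zero_smul,
          NormedSpace.exp_zero, Matrix.toLin'_one, LinearMap.id_apply]
      exact (Submodule.map_injective_of_injective hinj h2).symm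
  choose j hj1 hj2 hj3 using key
  -- the limit
  intro v hv
  have hd : ∀ i : I, HasDerivAt (fun t : ℂ => (NormedSpace.exp (t • A)).mulVec v i)
      ((A.mulVec v) i) 0 := by
    intro i
    have h1 : ∀ l : I, HasDerivAt (fun t : ℂ => NormedSpace.exp (t • A) i l * v l)
        ((A * NormedSpace.exp ((0 : ℂ) • A)) i l * v l) 0 := fun l =>
      (AL1B.hasDerivAt_exp_entry A 0 i l).mul_const (v l)
    have h2 := HasDerivAt.fun_sum (u := Finset.univ) fun l _ => h1 l
    rw [zero_smul, NormedSpace.exp_zero, mul_one] at h2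
    exact h2
  let c : ℕ → ℂ := fun n => (((j n : ℝ) / (n + 1) : ℝ) : ℂ)
  have hc0 : Tendsto c atTop (𝓝[≠] 0) := by
    rw [tendsto_nhdsWithin_iff]
    constructor
    · have h1 : Tendsto (fun n : ℕ => (j n : ℝ) / (n + 1)) atTop (𝓝 0) := by
        refine squeeze_zero (fun n => by positivity)
          (g := fun n : ℕ => (M : ℝ) * (1 / ((n : ℝ) + 1))) (fun n => ?_) ?_
        · rw [mul_one_div]
          gcongr
          exact_mod_cast hj2 n
        · have h2 := tendsto_one_div_add_atTop_nhds_zero_nat (𝕜 := ℝ)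
          simpa using h2.const_mul (M : ℝ)
      have h3 : Tendsto c atTop (𝓝 (((0 : ℝ) : ℂ))) :=
        (Complex.continuous_ofReal.tendsto 0).comp h1
      rwa [Complex.ofReal_zero] at h3
    · refine Filter.Eventually.of_forall fun n => ?_
      have : (0 : ℝ) < (j n : ℝ) / (n + 1) := by
        have := hj1 n
        positivity
      exact Complex.ofReal_ne_zero.2 this.ne'
  have hlim : Tendsto (fun n : ℕ => (c n)⁻¹ • ((NormedSpace.exp (c n • A)).mulVec v - v)) atTop
      (𝓝 (A.mulVec v)) := by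
    rw [tendsto_pi_nhds]
    intro i
    have h1 := (hd i).tendsto_slope_zero
    have h2 := h1.comp hc0
    refine h2.congr fun n => ?_
    simp [Matrix.one_mulVec]
  have hU : IsClosed (U : Set (I → ℂ)) := Submodule.closed_of_finiteDimensional U
  refine hU.mem_of_tendsto hlim (Filter.Eventually.of_forall fun n => ?_)
  refine U.smul_mem _ (U.sub_mem ?_ hv)
  have h1 : (NormedSpace.exp (c n • A)).mulVec v ∈
      U.map (Matrix.toLin' (NormedSpace.exp (c n • A))) := ⟨v, hv, rfl⟩
  rwa [hj3 n] at h1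

/-- **A subspace with finitely many images under all symmetries is stable under the matrices of the
Lie algebra that kill all members.** -/
theorem stabU_lie
    (full : ∀ x, IsG D x → (∀ L u, At L u → gT x u = u) → x ∈ Γ)
    {U : Submodule ℂ (I → ℂ)} (hU : StabU D At Γ U) {A : Matrix I I ℂ} (hA : IsLie D A)
    (hk : ∀ L u, At L u → aT A u = 0) : ∀ v ∈ U, A.mulVec v ∈ U := by
  refine stable_of_exp (hU.2.subset ?_)
  rintro _ ⟨t, rfl⟩
  refine ⟨_, full _ (alg1.G_exp D _ (alg1.Lie_smul D t A hA)) (fun L u hu => ?_), rfl⟩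
  refine gT_exp_eq ?_
  rw [alg1.smul_aT, hk L u hu, smul_zero]

/-- **At a sufficiently high level a stable subspace is, in the frame of `s`, stable under the Lie
algebra of the stabiliser of `s`.** -/
theorem exists_full
    (full : ∀ x, IsG D x → (∀ L u, At L u → gT x u = u) → x ∈ Γ) :
    ∃ m0 : ℕ, ∀ (m : ℕ), m0 ≤ m → ∀ {ι : Type} [Fintype ι] (len : ι → ℕ) (t s : Tup I len)
      (x : Matrix I I ℂ) (k l : I → ℂ), Lvl D At l m len t s x k →
      ∀ U : Submodule ℂ (I → ℂ), StabU D At Γ (U.map (Matrix.toLin' x)) →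
        ∀ A ∈ stab D s, ∀ v ∈ U, A.mulVec v ∈ U := by
  obtain ⟨m0, h0⟩ := exists_level At
  refine ⟨m0, fun m hm ι _ len t s x k l hL U hU A hA v hv => ?_⟩
  obtain ⟨hxi, hx1, hx2⟩ := alg1.G_inv D x hL.grp
  have hLie : IsLie D (x * A * x⁻¹) := CloT.Lie_conj alg1 x A hL.grp hA.1
  have hk : ∀ L u, At L u → aT (x * A * x⁻¹) u = 0 := by
    refine h0 _ fun L hLm u hu => ?_
    have h1 := Ktwo.killed hx2 hL.eq (hL.span L (hLm.trans hm) u hu) hA
    have h2 := alg1.gT_aT x A (gT x⁻¹ u) hx1
    rw [h1, Six.gT_zero, ← alg1.gT_mul, hx1, alg1.gT_one] at h2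
    exact h2.symm
  have h3 := stabU_lie full hU hLie hk (Matrix.toLin' x v) ⟨v, hv, rfl⟩
  obtain ⟨w, hw, hw2⟩ := h3
  have h4 : w = A.mulVec v := by
    have h5 := congrArg (Matrix.toLin' x⁻¹) hw2
    rw [← LinearMap.comp_apply, ← Matrix.toLin'_mul, hx2, Matrix.toLin'_one,
      LinearMap.id_apply, Matrix.toLin'_apply, Matrix.toLin'_apply, Matrix.mulVec_mulVec,
      Matrix.mulVec_mulVec] at h5
    rw [h5, ← mul_assoc, ← mul_assoc, hx2, one_mul, mul_assoc, hx2, mul_one]
  rwa [← h4]

end Pool.Agent.Lib.MP_361a6f_ag.FL.E.Ful
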