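import Pool.Agent.Lib.MP_361a6f_ag.FL.EM.Ful
import Pool.Agent.Lib.MP_361a6f_ag.FL.EM.DefsW

/-!
# Theorem EM, row FUL1
-/

set_option autoImplicit false

open Filter Topology

namespace Pool.Agent.Lib.MP_361a6f_ag.FL.E

/-- Row FUL1. -/
theorem ful1 : Ful1Statement := by
  intro I Λ _ _ _ D At Bt l Γ β _ lb b _ hF
  obtain ⟨m0, h⟩ := Ful.exists_full (D := D) (At := At) (Γ := Γ) hF
  refine ⟨m0, fun m hm ι _ len t s x k hL U hU A hA v hv => ?_⟩
  obtain ⟨hxi, hx1, hx2⟩ := alg1.G_inv D x hL.lvl.grp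
  have hs : Function.Surjective (Matrix.toLin' x) := by
    intro v
    refine ⟨Matrix.toLin' x⁻¹ v, ?_⟩
    rw [← LinearMap.comp_apply, ← Matrix.toLin'_mul, hx1, Matrix.toLin'_one, LinearMap.id_apply]
  have hU' : (U.comap (Matrix.toLin' x)).map (Matrix.toLin' x) = U :=
    Submodule.map_comap_eq_of_surjective hs U
  exact h m hm len t s x k l hL.lvl (U.comap (Matrix.toLin' x)) (by rw [hU']; exact hU) A hA v hv

end Pool.Agent.Lib.MP_361a6f_ag.FL.E
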