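import Pool.Agent.Lib.MP_361a6f_ag.FL.E.AsmF
import Pool.Agent.Lib.MP_361a6f_ag.FL.E.SymM
import Pool.Agent.Lib.MP_361a6f_ag.FL.E.EndM

/-!
# Theorem EM: the matrices of the symmetries are all matrices that fix the algebraic tensors
-/

open CategoryTheory AlgebraicGeometry MonoidalCategory CartesianMonoidalCategory

universe u v w w'

set_option autoImplicit false
set_option linter.unusedSectionVars false

namespace Pool.Agent.Lib.MP_361a6f_ag.FL.E

open Pool.Agent.Lib.MP_361a6f_ag.H3 Pool.Agent.Lib.MP_361a6f_ag.SQ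
  Pool.Agent.Lib.MP_361a6f_ag.PP

namespace Ful

noncomputable section

variable {k : Type u} [Field k] {W : CohomologyData.{u, 0, w} k ℂ} {𝒱 : VarietyClass k}
  (H : Host W 𝒱 1)

/-- a matrix of the group over the letter `(0, 1)` that fixes the algebraic tensors is the matrix
of a symmetry -/
theorem full_host (hAb : ∀ a, AbelianType W (H.X a) (H.n a))
    (hpd : ∀ a, PositiveDivisor W (H.X a) (H.n a) (H.ξ a))
    {M : Matrix (Sub H.D (0, 1)) (Sub H.D (0, 1)) ℂ} (hM : IsG (subD H.D (0, 1)) M)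
    (hfix : ∀ L u, At1 H L u → gT M u = u) :
    ∃ T : ∀ P : Prd 1, W.coh (P.obj H.X) →ₗ[ℂ] W.coh (P.obj H.X), SymF W H.X T ∧
      blk (SymM.mat H (T (.leaf 0))) = M := by
  obtain ⟨C, S⟩ := EndM.exists_lin H hAb hpd (EndC.isG_mex M hM)
  refine ⟨C, ⟨S.prod, fun i x hx => S.gr (.leaf 0) i x hx, fun P l z hz =>
    EndM.fix_codim1 H hAb hM S l (fun u hu => hfix _ u hu) P hz⟩, ?_⟩
  ext i j
  have h1 : H.e 0 (j : H.I) ∈ W.gr (H.X 0) 1 := by
    have h := H.e_gr 0 (j : H.I)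
    rwa [j.2] at h
  have h2 := S.on1 0 (H.e 0 (j : H.I)) h1
  refine (congrFun h2 (fun _ => (i : H.I))).trans ?_
  have h3 : H.tc (.leaf 0) (H.e 0 (j : H.I)) = Pi.single (fun _ => (j : H.I)) 1 :=
    JaT.tc_e H (ge H) 0 (j : H.I) (by rw [j.2])
  rw [h3]
  unfold gT
  rw [Finset.sum_eq_single (fun _ => (j : H.I))]
  · rw [Pi.single_eq_same, mul_one]
    refine (Fin.prod_univ_one _).trans ?_
    exact EndC.mex_on M i j
  · intro w _ hw
    rw [Pi.single_eq_of_ne hw, mul_zero]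
  · intro h
    exact absurd (Finset.mem_univ _) h

end

section hyp

variable {k : Type u} [Field k] {k' : Type v} [Field k'] {W : CohomologyData.{u, 0, w} k ℂ}
  {𝒱 : VarietyClass k} {W' : CohomologyData.{v, 0, w'} k' ℂ} {𝒱' : VarietyClass k'}
  (hW : IsWeilCohomology W 𝒱) {D : EQ.Data W W'}
  (h : EQ.Hyp 𝒱 𝒱' D) (c : Hst.Core W D.X D.g D.ξ)

/-- the matrices of all symmetries -/
def symSet : Set (Matrix c.I c.I ℂ) :=
  {M | ∃ T : ∀ P : Prd 1, W.coh (P.obj (hst hW h c).X) →ₗ[ℂ] W.coh (P.obj (hst hW h c).X),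
    SymF W (hst hW h c).X T ∧ M = SymM.mat (hst hW h c) (T (.leaf 0))}

/-- the set of `symMats` -/
theorem isMats_symSet : IsMats hW h c (symSet hW h c) := by
  refine ⟨?_, ?_, ?_, ?_⟩
  · rintro _ ⟨T, hT, rfl⟩ i j hij
    exact SymM.mat_typ (hst hW h c) hT i j hij
  · intro T hT
    exact ⟨_, ⟨symLin hT.tensor, symF_of hT, rfl⟩,
      fun z => SymM.tc_sym (hst hW h c) (symF_of hT) (.leaf 0) z⟩
  · rintro _ ⟨T, hT, rfl⟩
    exact SymM.mat_isG (hst hW h c) (at_ (hst hW h c)) hT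
  · rintro _ ⟨T, hT, rfl⟩ L u hu
    exact SymM.mat_fix (hst hW h c) hT L u hu

/-- **The set of the matrices of the symmetries is full.** -/
theorem full_symSet : ∀ M : Matrix (Sub c.D (0, 1)) (Sub c.D (0, 1)) ℂ, IsG (subD c.D (0, 1)) M →
    (∀ L u, At1 (hst hW h c) L u → gT M u = u) →
    M ∈ (E.blk '' (symSet hW h c) : Set (Matrix (Sub c.D (0, 1)) (Sub c.D (0, 1)) ℂ)) := by
  intro M hM hfix
  obtain ⟨T, hT, h1⟩ := full_host (hst hW h c) (fun _ => Hst.abelianType hW h) (fun _ => h.div)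
    hM hfix
  exact ⟨_, ⟨T, hT, rfl⟩, h1⟩

end hyp

end Ful

end Pool.Agent.Lib.MP_361a6f_ag.FL.E
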