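import Pool.Agent.Lib.MP_361a6f_ag.FL.E5.NSK4
import Pool.Agent.Lib.MP_361a6f_ag.FL.EM.DefsW

/-!
# Theorem EM for the data as they come from geometry

`ofM` transports `ThmMStatement` to the data `NSys` in an arbitrary adapted basis: the condition on
six minimal stable subspaces and the fullness of the group after a change of the basis by a matrix
`Y` of the group.
-/

open Filter Topology MeasureTheory

set_option autoImplicit false
set_option linter.unusedSectionVars false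

namespace Pool.Agent.Lib.MP_361a6f_ag.FL.E

open QS

variable {I Λ : Type} [Fintype I] [DecidableEq I] [DecidableEq Λ]

namespace K6

variable {D : Dat I Λ} {Y : Matrix I I ℂ}

/-- a stable subspace after transport, the other direction -/
theorem stabU_back (hodd : ∀ i, D.odd (D.typ i)) (a1 : Alg1) (hG : IsG D Y)
    {At : (L : ℕ) → Ten I L → Prop} {Γ : Set (Matrix I I ℂ)} {U : Submodule ℂ (I → ℂ)}
    (h : StabU D At Γ U) :
    StabU D (fun L u => At L (gT Y u)) {x' | ∃ x ∈ Γ, x' = Y⁻¹ * x * Y}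
      (U.map (Matrix.toLin' Y⁻¹)) := by
  obtain ⟨hY1, hY2, hY3⟩ := a1.G_inv D Y hG
  have hdet : IsUnit Y.det := by
    rw [← Matrix.isUnit_iff_isUnit_det]
    exact ⟨⟨Y, Y⁻¹, hY2, hY3⟩, rfl⟩
  have hYY : (Y⁻¹)⁻¹ = Y := Matrix.nonsing_inv_nonsing_inv Y hdet
  refine orb (Y := Y⁻¹) hodd a1 hY1 (At := fun L u => At L (gT Y u))
    (Γ := {x' | ∃ x ∈ Γ, x' = Y⁻¹ * x * Y}) (U := U) (fun z hz v hv => ?_) ?_
  · have e : gT Y (gT Y⁻¹ z) = z := psi_outer_gT a1 hG z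
    have hz' : At 2 (gT Y (gT Y⁻¹ z)) := hz
    rw [e] at hz'
    exact h.1 z hz' v hv
  · refine h.2.subset ?_
    rintro U' ⟨x', ⟨x'', ⟨x, hx, rfl⟩, rfl⟩, rfl⟩
    refine ⟨x, hx, ?_⟩
    have e : (Y⁻¹)⁻¹ * (Y⁻¹ * x * Y) * Y⁻¹ = x := by
      rw [hYY]
      calc Y * (Y⁻¹ * x * Y) * Y⁻¹ = (Y * Y⁻¹) * x * (Y * Y⁻¹) := by
            simp only [Matrix.mul_assoc]
        _ = x := by rw [hY2, Matrix.one_mul, Matrix.mul_one]
    rw [e]

/-- and back again -/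
theorem map_forth (a1 : Alg1) (hG : IsG D Y) (V : Submodule ℂ (I → ℂ)) :
    (V.map (Matrix.toLin' Y⁻¹)).map (Matrix.toLin' Y) = V := by
  rw [← Submodule.map_comp, ← Matrix.toLin'_mul, (a1.G_inv D Y hG).2.1, Matrix.toLin'_one,
    Submodule.map_id]

/-- a minimal stable subspace after transport -/
theorem minStab_tr (hodd : ∀ i, D.odd (D.typ i)) (a1 : Alg1) (hG : IsG D Y)
    {At : (L : ℕ) → Ten I L → Prop} {Γ : Set (Matrix I I ℂ)} {U : Submodule ℂ (I → ℂ)}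
    (h : MinStab D (fun L u => At L (gT Y u)) {x' | ∃ x ∈ Γ, x' = Y⁻¹ * x * Y} U) :
    MinStab D At Γ (U.map (Matrix.toLin' Y)) := by
  obtain ⟨h1, h2, h3⟩ := h
  refine ⟨fun h => h1 ?_, orb hodd a1 hG h2.1 h2.2, fun V hV hne hs => ?_⟩
  · rw [← map_back a1 hG U, h, Submodule.map_bot]
  · have h4 : V.map (Matrix.toLin' Y⁻¹) ≤ U := by
      rw [← map_back a1 hG U]
      exact Submodule.map_mono hV
    have h5 : V.map (Matrix.toLin' Y⁻¹) ≠ ⊥ := fun h => hne (by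
      rw [← map_forth a1 hG V, h, Submodule.map_bot])
    rw [← h3 _ h4 h5 (stabU_back hodd a1 hG hs), map_forth a1 hG V]

/-- `Few6` after transport by an invertible matrix -/
theorem few6_map (a1 : Alg1) (hG : IsG D Y) {Q Q' : Submodule ℂ (I → ℂ) → Prop} (h : Few6 Q)
    (hQ : ∀ U, Q' U → Q (U.map (Matrix.toLin' Y))) : Few6 Q' := by
  obtain ⟨hY1, hY2, hY3⟩ := a1.G_inv D Y hG
  intro U hU hi
  let e : (I → ℂ) ≃ₗ[ℂ] (I → ℂ) := Matrix.toLin'OfInv hY3 hY2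
  have he : (e : (I → ℂ) →ₗ[ℂ] (I → ℂ)) = Matrix.toLin' Y := rfl
  have hfr : ∀ V : Submodule ℂ (I → ℂ),
      Module.finrank ℂ (V.map (Matrix.toLin' Y)) = Module.finrank ℂ V := by
    intro V
    rw [← he]
    exact LinearEquiv.finrank_map_eq e V
  have h1 := h (fun i => (U i).map (Matrix.toLin' Y)) (fun i => hQ _ (hU i)) (by
    have h2 := hi.map_orderIso (Submodule.orderIsoMapComap e)
    exact h2)
  simp only [hfr] at h1
  exact h1

/-- the group after transport -/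
theorem full_tr (a1 : Alg1) (hG : IsG D Y) {At : (L : ℕ) → Ten I L → Prop}
    {Γ : Set (Matrix I I ℂ)} (h : ∀ x, IsG D x → (∀ L u, At L u → gT x u = u) → x ∈ Γ)
    {x : Matrix I I ℂ} (hx : IsG D x) (hfix : ∀ L u, At L (gT Y u) → gT x u = u) :
    ∃ x0 ∈ Γ, x = Y⁻¹ * x0 * Y := by
  obtain ⟨hY1, hY2, hY3⟩ := a1.G_inv D Y hG
  refine ⟨Y * x * Y⁻¹, h _ (a1.G_mul D _ _ (a1.G_mul D _ _ hG hx) hY1) fun L u hu => ?_, ?_⟩
  · rw [a1.gT_mul, a1.gT_mul, hfix L (gT Y⁻¹ u) (by rwa [psi_outer_gT a1 hG]),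
      psi_outer_gT a1 hG]
  · calc x = (Y⁻¹ * Y) * x * (Y⁻¹ * Y) := by rw [hY3, Matrix.one_mul, Matrix.mul_one]
      _ = Y⁻¹ * (Y * x * Y⁻¹) * Y := by simp only [Matrix.mul_assoc]

end K6

/-- **Theorem EM for the data from geometry.** -/
theorem ofM (hY : YStatement) (a1 : Alg1) (a2 : Alg2) (hM : ThmMStatement) {D : Dat I Λ}
    {At Ct : (L : ℕ) → Ten I L → Prop} {F : Matrix I I ℂ} {Γ : Set (Matrix I I ℂ)}
    (S : NSys D At Ct F Γ)
    (h4 : ∀ u ∈ Submodule.span ℝ {u : Ten I 4 | Ct 4 u}, ∃ r : ℝ, 0 ≤ r ∧ psiT D u u = (r : ℂ))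
    (hfull : Full D At Γ)
    (h1 : ∀ U : Submodule ℂ (I → ℂ), StabU D At Γ U →
      (∀ v ∈ U, ∀ w ∈ U, dotProduct v ((Psi D).mulVec w) = 0) → U = ⊥)
    (hfew : Few6 (MinStab D At Γ))
    (L : ℕ) (u : Ten I L) (hu : u ∈ Submodule.span ℝ {u | At L u})
    (hu0 : u ≠ 0) : ∃ r : ℝ, 0 < r ∧ psiT D u u = (r : ℂ) := by
  obtain ⟨Y, l, β, _, lb, b, hG, C, F4⟩ := exists_core4 hY a1 a2 S h4
  rw [← spanR a1 hG At L] at hu
  obtain ⟨u', hu', rfl⟩ := hu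
  have h5 := hM D _ _ _ _ _ _ C.toCSys F4
    (fun x hx hfix => K6.full_tr a1 hG hfull hx hfix) (by
    intro U hU hiso
    have h3 := h1 _ (orb S.odd a1 hG hU.1 hU.2) (by
      rintro _ ⟨v, hv, rfl⟩ _ ⟨w, hw, rfl⟩
      rw [Matrix.toLin'_apply, Matrix.toLin'_apply, iso_G hG]
      exact hiso v hv w hw)
    rw [← map_back a1 hG U, h3, Submodule.map_bot])
    (K6.few6_map a1 hG hfew fun U hU => K6.minStab_tr S.odd a1 hG hU) L u' hu'
    (fun h => hu0 (by rw [h, map_zero]))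
  obtain ⟨r, hr, h6⟩ := h5
  refine ⟨r, hr, ?_⟩
  rw [← h6]
  exact a1.psiT_gT D Y u' u' hG

end Pool.Agent.Lib.MP_361a6f_ag.FL.E
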