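import Pool.Agent.Lib.MP_361a6f_ag.FL.PT.Stat

/-!
# Theorem EM: few big pieces
-/

open CategoryTheory AlgebraicGeometry MonoidalCategory CartesianMonoidalCategory

universe u v w w'

namespace Pool.Agent.Lib.MP_361a6f_ag.FL

open Pool.Agent.Lib.MP_361a6f_ag.H3 Pool.Agent.Lib.MP_361a6f_ag.SQ

/-- `U` is a minimal stable subspace `≠ 0` of `H^1(X)`. (For abelian varieties: the subspace of
`H^1(X)` which belongs to one homomorphism to `ℂ` from the centre of the endomorphism algebra.) -/
structure EQ.MinStab {k : Type u} [Field k] (W : CohomologyData.{u, 0, w} k ℂ) (X : Sch k)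
    (n : ℕ) (U : Submodule ℂ (W.coh X)) : Prop where
  stable : EQ.Stable W X n U
  ne : U ≠ ⊥
  min : ∀ U', EQ.Stable W X n U' → U' ≤ U → U' ≠ ⊥ → U' = U

/-- No stable subspace of `H^1(X)` except `0` is isotropic for the form `Tr(ξ^(n-1) x y)` (for
abelian varieties: no factor of type IV); and there are no six independent minimal stable subspaces
of `H^1(X)` such that the first one has dimension at least `32`, or the first two have dimension at
least `8`. (The second condition is true if `n = dim X ≤ 11`, or if the centre of the endomorphism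
algebra has degree at most `5`, or if `X` is simple and `n ≤ 23`, or if `X` is a product of pairwise
not isogenous simple abelian varieties of dimension at most `3`.) -/
structure EQ.Parts {k : Type u} [Field k] (W : CohomologyData.{u, 0, w} k ℂ) (X : Sch k)
    (n : ℕ) (ξ : W.coh X) : Prop where
  iso : ∀ U, EQ.Stable W X n U →
    (∀ x ∈ U, ∀ y ∈ U, W.Tr (W.cup (ξ ^ (n - 1)) (W.cup x y)) = 0) → U = ⊥
  few : ∀ U : Fin 6 → Submodule ℂ (W.coh X), (∀ i, EQ.MinStab W X n (U i)) → iSupIndep U →
    Module.finrank ℂ (U 0) < 32 ∧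
      (8 ≤ Module.finrank ℂ (U 0) → Module.finrank ℂ (U 1) < 8)

/-- **Theorem EM.** Let `X` be an abelian variety with the property `EQ.Parts`. Then `Q1` holds for
all algebraic classes on all powers of `X`, and numerical equivalence is homological equivalence.
Here `X'` is a reduction of `X` over the algebraic closure of a finite field and `ξ` is the class of
an ample divisor, so that `s(ξ)` is the class of an ample divisor on `X'`. -/
def ThmEM : Prop :=
  ∀ {k : Type u} [Field k] (W : CohomologyData.{u, 0, w} k ℂ) (𝒱 : VarietyClass k)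
    (_ : IsWeilCohomology W 𝒱) {k' : Type v} [Field k'] (W' : CohomologyData.{v, 0, w'} k' ℂ)
    (𝒱' : VarietyClass k') (_ : IsWeilCohomology W' 𝒱') (D : EQ.Data W W') (_ : EQ.Hyp 𝒱 𝒱' D)
    (_ : EQ.Moving W' D.X' D.g (D.s (.leaf 0) D.ξ)) (_ : EQ.Parts W D.X D.g D.ξ)
    (P : Prd 1) (η : W.coh (EQ.pw D.X P)) (_ : IsPol W (fun _ => D.ξ) P η),
    EQ.Q1 W (EQ.pw D.X P) (P.dim fun _ => D.g) η ∧ EQ.NumHom W (EQ.pw D.X P)

end Pool.Agent.Lib.MP_361a6f_ag.FL
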