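import Pool.Agent.Lib.MP_361a6f_ag.FL.EM.PieceP
import Pool.Agent.Lib.MP_361a6f_ag.FL.EM.Em32
import Pool.Agent.Lib.MP_361a6f_ag.FL.E11.ParQ

/-!
# Theorem EM: `2 ^ (q + 1)` dimensions inside a stable subspace
-/

set_option autoImplicit false
set_option linter.unusedSectionVars false

open Matrix Module
open scoped InnerProductSpace

namespace Pool.Agent.Lib.MP_361a6f_ag.FL.E11

open E E.LemR

variable {I : Type} [Fintype I] [DecidableEq I] {h : Submodule ℂ (Matrix I I ℂ)} {κ : I → ℂ}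
  {P : Matrix I I ℂ} {U : Submodule ℂ (I → ℂ)}

/-- An even number `q` of orthogonal roots with sum twice a weight of `U`, the sums of two of them
are no roots: the dimension is at least `2 ^ (q + 1)`. -/
theorem Nice.parQ (hU : Nice h P U) (hS : Sit h κ)
    (hP : ∀ A ∈ h, A.transpose * P + P * A = 0) (hPt : P.transpose = -P) {v : rt h}
    (hv : v ∈ WtU h U) (N : Finset (rt h)) (hev : Even N.card) (hN : ∀ b ∈ N, b ∈ Rt h κ)
    (ho : ∀ b ∈ N, ∀ c ∈ N, b ≠ c → ⟪b, c⟫_ℝ = 0 ∧ b + c ∉ Rt h κ) (h2 : v + v = ∑ b ∈ N, b) :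
    2 ^ (N.card + 1) ≤ finrank ℂ U := by
  classical
  obtain ⟨u, huU, hu0, hu⟩ := hv
  have hx : ∀ b : rt h, b ∈ N → ∃ p : Tri I, Hom h κ p.1 p.2.1 p.2.2 ∧
      ∀ T, diagonal T ∈ h → ev b T = p.2.1 T := by
    intro b hb
    obtain ⟨-, x, α, c, hx, hxa⟩ := hN b hb
    exact ⟨(x, α, c), hx, hxa⟩
  choose! X hX using hx
  have hnd : N.toList.Nodup := N.nodup_toList
  have hin : ∀ b, b ∈ N.toList ↔ b ∈ N := fun b => Finset.mem_toList
  have hvb : ∀ b ∈ N, 0 < ⟪b, v⟫_ℝ := by
    intro b hb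
    have hb0 : b ≠ 0 := (hN b hb).1
    have h3 : ⟪v + v, b⟫_ℝ = ⟪b, b⟫_ℝ := by
      rw [h2, sum_inner, Finset.sum_eq_single_of_mem b hb fun c hc hcb => (ho c hc b hb hcb).1]
    rw [inner_add_left] at h3
    have h4 := real_inner_self_pos.2 hb0
    rw [real_inner_comm v b]
    linarith
  have key := LemR.parQ hS hP hPt U hU.stab
    (fun w hw hc => hU.nd w hw fun w' hw' => by rw [dot_skew hPt, hc w' hw', neg_zero])
    (N.toList.map X) ?_ ?_ ?_ ?_ (fun T => ev v T) ?_ ?_ huU ?_ hu0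
  · rwa [List.length_map, Finset.length_toList] at key
  · intro p hp
    obtain ⟨b, hb, rfl⟩ := List.mem_map.1 hp
    exact (hX b ((hin b).1 hb)).1
  · rw [List.pairwise_map]
    refine List.Pairwise.imp_of_mem ?_ hnd
    intro b c hb hc hbc
    have hb' := (hin b).1 hb
    have hc' := (hin c).1 hc
    have e1 := (ho b hb' c hc' hbc).1
    refine ⟨?_, ?_⟩
    · rw [← (hX b hb').2 _ (mem_tt hS (hX c hc').1), ev_tt hS (hX c hc').1 (hX c hc').2,
        real_inner_comm b c, e1, mul_zero, Complex.ofReal_zero]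
    · rw [← (hX c hc').2 _ (mem_tt hS (hX b hb').1), ev_tt hS (hX b hb').1 (hX b hb').2,
        e1, mul_zero, Complex.ofReal_zero]
  · rw [List.pairwise_map]
    refine List.Pairwise.imp_of_mem ?_ hnd
    intro b c hb hc hbc
    have hb' := (hin b).1 hb
    have hc' := (hin c).1 hc
    obtain ⟨e1, e2⟩ := ho b hb' c hc' hbc
    by_contra hne'
    refine e2 ⟨?_, _, _, _, hom_comm hS (hX b hb').1 (hX c hc').1 (sub_ne_zero.2 hne'),
      fun T hT => ?_⟩
    · intro h0
      have h3 : ⟪b + c, c⟫_ℝ = 0 := by rw [h0, inner_zero_left]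
      rw [inner_add_left, e1, zero_add] at h3
      exact (real_inner_self_pos.2 (hN c hc').1).ne' h3
    · rw [ev_add, (hX b hb').2 T hT, (hX c hc').2 T hT]
  · rw [List.length_map, Finset.length_toList]
    exact hev
  · intro p hp
    obtain ⟨b, hb, rfl⟩ := List.mem_map.1 hp
    have hb' := (hin b).1 hb
    rw [ev_tt hS (hX b hb').1 (hX b hb').2, Complex.ofReal_re]
    exact mul_pos (nrm_pos (hX b hb').1.ne) (hvb b hb')
  · intro T hT
    have e0 : ∀ s : List (rt h), (∀ b ∈ s, b ∈ N) →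
        ev s.sum T = ((s.map X).map fun p => p.2.1 T).sum := by
      intro s
      induction s with
      | nil =>
        intro _
        simp [ev_zero]
      | cons b s ih =>
        intro hs
        rw [List.sum_cons, ev_add, List.map_cons, List.map_cons, List.sum_cons,
          ih fun c hc => hs c (List.mem_cons_of_mem _ hc),
          (hX b (hs b List.mem_cons_self)).2 T hT]
    rw [← ev_add, h2, ← e0 _ fun b hb => (hin b).1 hb]
    congr 1
    rw [Finset.sum_toList]
  · intro T hT i hi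
    rw [← ev_wt hS i hT, hu i hi]

/-- the field `Par4` -/
theorem par4 (hS : Sit h κ) (hP : ∀ A ∈ h, A.transpose * P + P * A = 0)
    (hPt : P.transpose = -P) (V : I → Submodule ℂ (I → ℂ)) (hV : ∀ l, Nice h P (V l))
    (hl : ∀ l, wt h l ∈ WtU h (V l)) :
    Par4 (wt h) (Rt h κ) (fun l => finrank ℂ (V l)) := by
  intro l N hN h1 h2 h3
  have h4 := (hV l).parQ hS hP hPt (hl l) N (by rw [hN]; exact ⟨2, rfl⟩) h1 h2 h3
  rw [hN] at h4
  exact h4

end Pool.Agent.Lib.MP_361a6f_ag.FL.E11
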