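import Pool.Agent.Lib.MP_361a6f_ag.FL.EM.Pcs
import Pool.Agent.Lib.MP_361a6f_ag.FL.EM.Piece32
import Pool.Agent.Lib.MP_361a6f_ag.FL.E11.L2

/-!
# Theorem EM, row R11M: the hook

As `FL/E11/R11.lean`. A word that is reduced to at least six letters in different classes gives six
independent minimal stable subspaces, by the counting lemma inside the pieces two of them have
dimension at least `8` or one has dimension at least `32`.
-/

set_option autoImplicit false
set_option linter.unusedSectionVars false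

open Matrix Module

namespace Pool.Agent.Lib.MP_361a6f_ag.FL.E.Mn

open LemR P5e K1 R4

/-- six different indices, the first two are given -/
theorem exists_inj6 {L : ℕ} (hL : 6 ≤ L) {a b : Fin L} (hab : a ≠ b) :
    ∃ φ : Fin 6 → Fin L, Function.Injective φ ∧ φ 0 = a ∧ φ 1 = b := by
  let e : Fin 6 → Fin L := Fin.castLE hL
  have he : Function.Injective e := Fin.castLE_injective hL
  let σ : Equiv.Perm (Fin L) := Equiv.swap (e 0) a
  have h0 : σ (e 0) = a := Equiv.swap_apply_left _ _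
  have h1 : σ (e 1) ≠ a := by
    intro h
    exact absurd (he (σ.injective (h.trans h0.symm))) (by decide)
  let ρ : Equiv.Perm (Fin L) := Equiv.swap (σ (e 1)) b
  refine ⟨fun j => ρ (σ (e j)), fun i j hij => he (σ.injective (ρ.injective hij)), ?_, ?_⟩
  · show ρ (σ (e 0)) = a
    rw [h0]
    exact Equiv.swap_apply_of_ne_of_ne (Ne.symm h1) hab
  · exact Equiv.swap_apply_left _ _

/-- `Few6` for the pieces of letters in different classes -/
theorem not_few6 {I : Type} [Fintype I] [DecidableEq I] {Q : Submodule ℂ (I → ℂ) → Prop}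
    (hQ : Few6 Q) {B : Matrix I I ℂ} (hU2 : B * Bᴴ = 1) {A : Type} (q : I → A)
    (M : I → Submodule ℂ (I → ℂ)) (hM : ∀ l, Q (M l))
    (hMq : ∀ l, M l ≤ H5.co B {i | q i = q l}) {L : ℕ} (hL : 6 ≤ L) (l : Fin L → I)
    (hl : Function.Injective fun a => q (l a)) :
    ¬ ((∃ a b, a ≠ b ∧ 8 ≤ finrank ℂ (M (l a)) ∧ 8 ≤ finrank ℂ (M (l b))) ∨
      ∃ a, 32 ≤ finrank ℂ (M (l a))) := by
  have key : ∀ a b, a ≠ b → finrank ℂ (M (l a)) < 32 ∧
      (8 ≤ finrank ℂ (M (l a)) → finrank ℂ (M (l b)) < 8) := by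
    intro a b hab
    obtain ⟨φ, hφ, h0, h1⟩ := exists_inj6 hL hab
    have h2 : iSupIndep fun j => M (l (φ j)) :=
      ((H5.co_indep hU2 q).comp (f := fun j => q (l (φ j))) (fun i j hij => hφ (hl hij))).mono
        fun j => hMq (l (φ j))
    have h3 := hQ _ (fun j => hM (l (φ j))) h2
    rw [h0, h1] at h3
    exact h3
  rintro (⟨a, b, hab, h1, h2⟩ | ⟨a, h1⟩)
  · have h3 := (key a b hab).2 h1
    omega
  · obtain ⟨b, hb⟩ : ∃ b : Fin L, a ≠ b := by
      by_cases h0 : a = ⟨0, by omega⟩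
      · refine ⟨⟨1, by omega⟩, ?_⟩
        rw [h0]
        intro h
        exact absurd (congrArg Fin.val h) (by simp)
      · exact ⟨_, h0⟩
    have h3 := (key a b hb).1
    omega

/-- **Row R11M.** -/
theorem r11M : R11MStatement := by
  intro I _ _ S E P hlie hstar hE hEP hP hu hskew a hreal ha k hak τ G hττ hτ C heven hmv h1 hfew
    L u hku hu0
  classical
  have a1 : Alg1 := alg1
  obtain ⟨U, κ, r, F, har, hmr⟩ := exists_frame5 S E hlie hstar hE a hreal ha (fun _ => 1)
    (fun _ => one_ne_zero) (fun _ _ _ => rfl)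
    (fun e _ => by rw [Matrix.diagonal_one, Matrix.mul_one, Matrix.one_mul])
    (fun A hA => by
      rw [inv_one, Matrix.diagonal_one, Matrix.one_mul, Matrix.mul_one]
      exact hA)
  have hκ1 : ∀ i, κ i = 1 := by
    intro i
    obtain ⟨j, hj⟩ := F.val i
    exact hj
  have hS := F.sit
  have hU1 := F.u1
  have hU2 := F.u2
  -- the form in the new coordinates
  have hUT : Uᵀ * Uᴴᵀ = 1 := by
    rw [← Matrix.transpose_mul, hU1, Matrix.transpose_one]
  have hQlie : ∀ X ∈ conjS U S, Xᵀ * (Uᵀ * P * U) + Uᵀ * P * U * X = 0 := by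
    intro X hX
    have h2 := hP _ (mem_conjS.1 hX)
    rw [Matrix.transpose_mul, Matrix.transpose_mul] at h2
    calc Xᵀ * (Uᵀ * P * U) + Uᵀ * P * U * X
        = (Uᵀ * Uᴴᵀ) * (Xᵀ * Uᵀ) * P * U + Uᵀ * P * (U * X) * (Uᴴ * U) := by
          rw [hUT, hU1, Matrix.one_mul, Matrix.mul_one]
          simp only [Matrix.mul_assoc]
      _ = Uᵀ * (Uᴴᵀ * (Xᵀ * Uᵀ) * P + P * (U * X * Uᴴ)) * U := by
          rw [Matrix.mul_add, Matrix.add_mul]
          simp only [Matrix.mul_assoc]
      _ = 0 := by rw [h2, Matrix.mul_zero, Matrix.zero_mul]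
  have hQpair : ∀ i j, (Uᵀ * P * U) i j ≠ 0 →
      (∀ T, diagonal T ∈ conjS U S → T i + T j = 0) ∧ κ i * κ j = 1 := by
    intro i j hij
    refine ⟨fun T hT => ?_, by rw [hκ1, hκ1, mul_one]⟩
    have h2 := congrFun (congrFun (hQlie _ hT) i) j
    rw [Matrix.diagonal_transpose, Matrix.add_apply, Matrix.diagonal_mul, Matrix.mul_diagonal,
      Matrix.zero_apply, mul_comm, ← mul_add] at h2
    exact (mul_eq_zero.1 h2).resolve_left hij
  -- the classes
  let rr : Setoid I := ⟨Conn (conjS U S) κ, fun i => Conn.refl i, fun h2 => conn_symm hS h2,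
    fun h2 h3 => conn_trans hS h2 h3⟩
  let B : Type := Quotient rr
  let q : I → B := fun i => Quotient.mk rr i
  have hq : ∀ i j, Conn (conjS U S) κ i j → q i = q j := fun i j hij => Quotient.sound hij
  have hqc : ∀ i j, q i = q j → Conn (conjS U S) κ i j := fun i j hij => Quotient.exact hij
  have : Fintype B := Fintype.ofFinite B
  -- the pairs
  have pairs : ∀ i, ∃ a b, Conn (conjS U S) κ i a ∧ Conn (conjS U S) κ i b ∧
      (∀ T, diagonal T ∈ conjS U S → T a + T b = 0) ∧ κ a * κ b = 1 := by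
    intro i
    by_contra hc
    -- the coordinate subspace of the class of `i`
    let W : Submodule ℂ (I → ℂ) :=
      { carrier := {v | ∀ j, ¬ Conn (conjS U S) κ i j → (Uᴴ *ᵥ v) j = 0}
        add_mem' := by
          intro v v' hv hv' j hj
          rw [Matrix.mulVec_add, Pi.add_apply, hv j hj, hv' j hj, add_zero]
        zero_mem' := by
          intro j _
          rw [Matrix.mulVec_zero, Pi.zero_apply]
        smul_mem' := by
          intro c v hv j hj
          rw [Matrix.mulVec_smul, Pi.smul_apply, hv j hj, smul_zero] }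
    have hst : ∀ M : Matrix I I ℂ, (∀ x y, (Uᴴ * M * U) x y ≠ 0 → Conn (conjS U S) κ x y) →
        ∀ v ∈ W, M.mulVec v ∈ W := by
      intro M hM v hv x hx
      have e : Uᴴ *ᵥ (M *ᵥ v) = (Uᴴ * M * U) *ᵥ (Uᴴ *ᵥ v) := by
        rw [Matrix.mulVec_mulVec, Matrix.mulVec_mulVec]
        congr 1
        calc Uᴴ * M = Uᴴ * M * (U * Uᴴ) := by rw [hU2, Matrix.mul_one]
          _ = Uᴴ * M * U * Uᴴ := by simp only [Matrix.mul_assoc]
      rw [e, Matrix.mulVec, dotProduct]
      refine Finset.sum_eq_zero fun y _ => ?_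
      by_cases hy : Conn (conjS U S) κ i y
      · by_cases h0 : (Uᴴ * M * U) x y = 0
        · rw [h0, zero_mul]
        · exact absurd (conn_trans hS hy (conn_symm hS (hM x y h0))) hx
      · rw [hv y hy, mul_zero]
    have hW := h1 W
      (fun A hA => hst A fun x y h0 => Conn.step hS (F.mem A hA) h0 (Conn.refl y))
      (fun e he => hst e fun x y h0 =>
        Conn.same (F.same e he x y h0).1 (F.same e he x y h0).2 (Conn.refl y)) (by
        intro v hv w hw
        have hUv : ∀ x : I → ℂ, U *ᵥ (Uᴴ *ᵥ x) = x := by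
          intro x
          rw [Matrix.mulVec_mulVec, hU2, Matrix.one_mulVec]
        have e : dotProduct v (P *ᵥ w)
            = dotProduct (Uᴴ *ᵥ v) ((Uᵀ * P * U) *ᵥ (Uᴴ *ᵥ w)) := by
          calc dotProduct v (P *ᵥ w)
              = dotProduct (U *ᵥ (Uᴴ *ᵥ v)) (P *ᵥ (U *ᵥ (Uᴴ *ᵥ w))) := by rw [hUv, hUv]
            _ = dotProduct (Uᴴ *ᵥ v) (Uᵀ *ᵥ (P *ᵥ (U *ᵥ (Uᴴ *ᵥ w)))) := by
                rw [Matrix.dotProduct_mulVec (Uᴴ *ᵥ v), Matrix.vecMul_transpose]
            _ = _ := by simp only [Matrix.mulVec_mulVec, Matrix.mul_assoc]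
        rw [e, dotProduct]
        refine Finset.sum_eq_zero fun x _ => ?_
        by_cases hx : Conn (conjS U S) κ i x
        · have h2 : ((Uᵀ * P * U) *ᵥ (Uᴴ *ᵥ w)) x = 0 := by
            rw [Matrix.mulVec, dotProduct]
            refine Finset.sum_eq_zero fun y _ => ?_
            by_cases hy : Conn (conjS U S) κ i y
            · by_cases h0 : (Uᵀ * P * U) x y = 0
              · rw [h0, zero_mul]
              · exact absurd ⟨x, y, hx, hy, hQpair x y h0⟩ hc
            · rw [hw y hy, mul_zero]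
          rw [h2, mul_zero]
        · rw [hv x hx, zero_mul])
    have h2 : U *ᵥ Pi.single i 1 ∈ W := by
      intro j hj
      rw [Matrix.mulVec_mulVec, hU1, Matrix.one_mulVec]
      refine Pi.single_eq_of_ne ?_ _
      rintro rfl
      exact hj (Conn.refl _)
    rw [hW, Submodule.mem_bot] at h2
    have h3 := congrArg (fun v => (Uᴴ *ᵥ v) i) h2
    simp only [Matrix.mulVec_mulVec, hU1, Matrix.one_mulVec, Pi.single_eq_same,
      Matrix.mulVec_zero, Pi.zero_apply] at h3
    exact one_ne_zero h3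
  have hUUH : ∀ {L : ℕ} (u : Ten I L), gT U (gT Uᴴ u) = u := by
    intro L u
    rw [← a1.gT_mul, hU2, a1.gT_one]
  have hnull : ∀ {L : ℕ} (u : Ten I L), (∀ A ∈ S, aT A u = 0) → ∀ w, gT Uᴴ u w ≠ 0 →
      ∀ T, diagonal T ∈ conjS U S → ((Finset.univ.val.map w).map T).sum = 0 := by
    intro L u hku w hw T hT
    have h4 := congrFun (F.kill L u hku _ hT) w
    rw [P5e.aT_diag, Pi.zero_apply] at h4
    have h5 := (mul_eq_zero.1 h4).resolve_right hw
    rw [Multiset.map_map]
    exact h5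
  -- the words in the new coordinates
  have hword : ∀ {L : ℕ} (u : Ten I L),
      (∀ w, u w ≠ 0 → ∃ ε : ℤˣ, G ε (List.ofFn w) ∧ ∏ j, k (w j) = (((ε : ℤ) : ℝ) : ℂ)) →
      ∀ w, gT Uᴴ u w ≠ 0 → ∃ ε : ℤˣ, Gn G r ε (Finset.univ.val.map w) ∧
        ∏ j, k (r (w j)) = (((ε : ℤ) : ℝ) : ℂ) := by
    intro L u hu w hw
    obtain ⟨w0, h2, h3⟩ : ∃ w0, u w0 ≠ 0 ∧ ∀ j, Uᴴ (w j) (w0 j) ≠ 0 := by
      by_contra hc
      push Not at hc
      apply hw
      show ∑ w' : Fin L → I, (∏ i, Uᴴ (w i) (w' i)) * u w' = 0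
      refine Finset.sum_eq_zero fun w' _ => ?_
      by_cases h0 : u w' = 0
      · rw [h0, mul_zero]
      · obtain ⟨j, hj⟩ := hc w' h0
        rw [Finset.prod_eq_zero (Finset.mem_univ j) hj, zero_mul]
    have h4 : ∀ j, a (w0 j) = a (r (w j)) := by
      intro j
      refine har _ _ fun h0 => h3 j ?_
      rw [Matrix.conjTranspose_apply, h0, star_zero]
    obtain ⟨ε, h5, h6⟩ := hu w0 h2
    refine ⟨ε, ⟨List.ofFn w, ?_, ?_⟩, ?_⟩
    · rw [Fin.univ_val_map]
    · refine C.blk ε _ _ ?_ h5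
      rw [List.map_ofFn, List.map_map, List.map_ofFn]
      congr 1
      funext j
      exact h4 j
    · rw [← h6]
      exact Finset.prod_congr rfl fun j _ => hak _ _ (h4 j).symm
  -- the reduction
  have rules : ∀ e : ℤˣ, Red.Rules (conjS U S) (Q τ G r) (Gn G r e) := fun e =>
    ⟨fun i j v hT h => gn_can C hτ r (hT _ hmr) h, fun l m m' n v hQ h => gn_exch C r hQ h⟩
  have hqS : ∀ A ∈ conjS U S, ∀ i j, A i j ≠ 0 → q i = q j := fun A hA i j hij =>
    hq i j (Conn.step hS hA hij (Conn.refl j))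
  have hsum : ∀ i j, q i = q j → ∃ s : Multiset (Tri I),
      (∀ p ∈ s, Red.HomR (conjS U S) κ (Q τ G r) p.1 p.2.1 p.2.2) ∧
      ∀ T, diagonal T ∈ conjS U S → T i + T j = (s.map fun p => p.2.1 T).sum := by
    intro i j hij
    have h2 := ((conn_iff hS).1 (hqc i j hij)).add (sq_of_pairs hS pairs j)
    obtain ⟨s, h3, h4, -⟩ := h2
    obtain ⟨s', h5, h6⟩ := refine_ms C hττ hτ hmv har s h3
    refine ⟨s', h5, fun T hT => ?_⟩
    rw [h6 T, ← h4 T hT]
    ring
  choose M hM using fun l => exists_piece F hP hEP hskew hu h1 q hq l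
  have main : ∀ (e : ℤˣ) (v : Multiset I), Gn G r e v →
      (∀ T, diagonal T ∈ conjS U S → (v.map T).sum = 0) → e = 1 := by
    intro e v hv h0
    obtain ⟨v', h2, h0', h3, -⟩ := Red.red hS (rules e) q hqS hsum _ v le_rfl hv h0
    have hlt : Multiset.card v' < 6 := by
      by_contra hc
      push Not at hc
      obtain ⟨t, rfl⟩ : ∃ t : List I, (t : Multiset I) = v' := ⟨v'.toList, v'.coe_toList⟩
      have hn : (t.map q).Nodup := h3
      have hinj := List.nodup_iff_injective_get.1 hn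
      have h4 : ∀ T, diagonal T ∈ conjS U S → ∑ j : Fin t.length, T (t.get j) = 0 := by
        intro T hT
        have h5 := h0' T hT
        rw [Multiset.map_coe, Multiset.sum_coe] at h5
        rw [← h5]
        exact Fin.sum_univ_fun_getElem t T
      have h5 : ∀ x y : Fin t.length, x ≠ y →
          E11.wt (conjS U S) (t.get x) - E11.wt (conjS U S) (t.get y) ∉
            AddSubgroup.closure (E11.Rt (conjS U S) κ) := by
        intro x y hxy hcon
        have h5 := hq _ _ ((E11.sub_mem_iff hS F.eqv _ _).1 hcon)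
        have h6 : (t.map q).get ⟨x.1, by rw [List.length_map]; exact x.2⟩
            = (t.map q).get ⟨y.1, by rw [List.length_map]; exact y.2⟩ := by
          simpa using h5
        have h7 := congrArg Fin.val (hinj h6)
        exact hxy (Fin.ext h7)
      have hQt : (Uᵀ * P * U)ᵀ = -(Uᵀ * P * U) := by
        rw [Matrix.transpose_mul, Matrix.transpose_mul, Matrix.transpose_transpose, hskew,
          Matrix.neg_mul, Matrix.mul_neg, Matrix.mul_assoc]
      obtain ⟨l', -, h6, h7⟩ := E11.lemmaEM32 E11.l2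
        (E11.RootSit0_of hS F.eqv fun i => by
          obtain ⟨x, y, hx, hy, hxy, -⟩ := pairs i
          exact ⟨x, y, hx, hy, hxy⟩)
        (E11.pieceSit hS hQlie hQt (fun l => tr U (M l)) (fun l => (hM l).2.1)
          fun l => (hM l).2.2.1)
        (E11.par4 hS hQlie hQt (fun l => tr U (M l)) (fun l => (hM l).2.1)
          fun l => (hM l).2.2.1)
        (fun j : Fin t.length => t.get j) hc (E11.sum_wt_eq_zero hS _ h4) h5
      refine not_few6 hfew hU2 q M (fun l => (hM l).1) (fun l => (hM l).2.2.2) hc l' ?_ ?_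
      · intro x y hxy
        by_contra hne
        refine h5 x y hne ?_
        have h8 := (E11.sub_mem_iff hS F.eqv _ _).2 (hqc _ _ hxy)
        have h9 := add_mem (sub_mem h8 (h6 x)) (h6 y)
        have e : E11.wt (conjS U S) (t.get x) - E11.wt (conjS U S) (t.get y)
            = E11.wt (conjS U S) (l' x) - E11.wt (conjS U S) (l' y) -
              (E11.wt (conjS U S) (l' x) - E11.wt (conjS U S) (t.get x)) +
              (E11.wt (conjS U S) (l' y) - E11.wt (conjS U S) (t.get y)) := by abel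
        rw [e]
        exact h9
      · have h8 : ∀ l, finrank ℂ (tr U (M l)) ≤ finrank ℂ (M l) := fun l =>
          (finrank_tr hU2 (M l)).le
        rcases h7 with ⟨x, y, hxy, h9, h10⟩ | ⟨x, h9⟩
        · exact Or.inl ⟨x, y, hxy, h9.trans (h8 _), h10.trans (h8 _)⟩
        · exact Or.inr ⟨x, h9.trans (h8 _)⟩
    refine gn_four C r ?_ h2
    obtain ⟨t, ht, h5⟩ := h2
    have h6 := heven e _ h5
    rw [List.length_map] at h6
    have h7 : Multiset.card v' = t.length := by rw [← ht, Multiset.coe_card]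
    obtain ⟨m, hm⟩ := h6
    omega
  have hkU : diagonal k * U = U * diagonal fun j => k (r j) := by
    ext i j
    rw [Matrix.diagonal_mul, Matrix.mul_diagonal]
    by_cases h0 : U i j = 0
    · simp [h0]
    · rw [hak _ _ (har i j h0), mul_comm]
  have hfix : gT (diagonal fun j => k (r j)) (gT Uᴴ u) = gT Uᴴ u := by
    funext w
    rw [P5e.gT_diag]
    by_cases h0 : gT Uᴴ u w = 0
    · rw [h0, mul_zero]
    · obtain ⟨ε, h6, h7⟩ := hword u hu0 w h0
      have h8 := main ε _ h6 (hnull u hku w h0)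
      rw [h7, h8]
      simp
  calc gT (diagonal k) u = gT (diagonal k) (gT U (gT Uᴴ u)) := by rw [hUUH]
    _ = gT U (gT (diagonal fun j => k (r j)) (gT Uᴴ u)) := by
        rw [← a1.gT_mul, hkU, a1.gT_mul]
    _ = u := by rw [hfix, hUUH]

end Pool.Agent.Lib.MP_361a6f_ag.FL.E.Mn
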