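import Pool.Agent.Lib.MP_361a6f_ag.FL.EM.DefsW
import Pool.Agent.Lib.MP_361a6f_ag.FL.E11.W11

/-!
# Theorem EM: the assembly (row WM)
-/

set_option autoImplicit false
set_option linter.unusedSectionVars false

open Filter Topology

namespace Pool.Agent.Lib.MP_361a6f_ag.FL.E

namespace Wem

variable {I Λ : Type} [Fintype I] [DecidableEq I] [DecidableEq Λ] {D : Dat I Λ}
  {At : (L : ℕ) → Ten I L → Prop}

theorem indep_map {ι : Type} {f : (I → ℂ) →ₗ[ℂ] (I → ℂ)} (hf : Function.Injective f)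
    {U : ι → Submodule ℂ (I → ℂ)} (hU : iSupIndep U) : iSupIndep fun i => (U i).map f := by
  intro i
  have h1 : (⨆ (j) (_ : j ≠ i), (U j).map f) = (⨆ (j) (_ : j ≠ i), U j).map f := by
    rw [Submodule.map_iSup]
    exact iSup_congr fun j => (Submodule.map_iSup _ _).symm
  rw [h1, disjoint_iff, ← Submodule.map_inf f hf, disjoint_iff.1 (hU i), Submodule.map_bot]

/-- the matrices of the tensors of length two are closed under the adjoint -/
theorem adj (S : ASys D At) (ho : ∀ i, D.odd (D.typ i)) {z : Ten I 2} (hz : At 2 z) :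
    ∃ f ∈ {e | ∃ z, At 2 z ∧ e = opM D z}, f.transpose * Psi D = Psi D * opM D z := by
  refine ⟨opM D (((-1 : ℚ) : ℂ) • permT (Equiv.swap 0 1) z),
    ⟨_, S.qsmul _ _ _ (S.perm _ _ _ hz), rfl⟩, ?_⟩
  ext i j
  rw [Matrix.mul_apply, Matrix.mul_apply, Finset.sum_eq_single (D.τ j),
    Finset.sum_eq_single (D.τ i)]
  · simp only [Matrix.transpose_apply, opM, Psi, Matrix.of_apply, Pi.smul_apply, smul_eq_mul,
      permT, D.τ_τ, if_true]
    have h1 : (![D.τ j, D.τ i] : Fin 2 → I) ∘ (Equiv.swap (0 : Fin 2) 1) = ![D.τ i, D.τ j] := by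
      funext r
      fin_cases r <;> rfl
    rw [(D.odd_τ j (ho j)).2]
    simp only [h1]
    push_cast
    ring
  · intro m _ hm
    simp only [Psi, Matrix.of_apply]
    rw [if_neg hm, zero_mul]
  · intro h
    exact absurd (Finset.mem_univ _) h
  · intro m _ hm
    simp only [Psi, Matrix.of_apply]
    rw [if_neg, mul_zero]
    intro h
    exact hm (by rw [h, D.τ_τ])
  · intro h
    exact absurd (Finset.mem_univ _) h

end Wem

/-- Row WM. -/
theorem wm : WMStatement := by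
  intro w1x w2 r11 f1 p2 p3 g4 g4b I Λ _ _ _ D At Bt l Γ β _ lb b hE hF hfull hiso hfew L u hu hu0
  obtain ⟨m0, hm0⟩ := f1 D At Bt l Γ lb b hE hfull
  obtain ⟨ι, _, len, t, s, x, k, h, G, hC, hwd⟩ :=
    w1x D At Bt l Γ lb b hE hF (max m0 (max L 2))
  have hful := hm0 _ (le_max_left m0 (max L 2)) len t s x k h
  have hL := h.lvl
  obtain ⟨a, ha, har, haS⟩ := p3 D s l hE.typ_eq hE.odd hE.tau hE.ratio hL.fix
  have com := g4b D At Bt l Γ lb b hE _ ((le_max_right L 2).trans (le_max_right m0 _))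
    len t s x k h
  obtain ⟨hxi, hx1, hx2⟩ := alg1.G_inv D x hL.grp
  have hCa : Calc D.τ a (fun ε v => G ε v ∧ Even v.length) :=
    Weleven.calc_even (Wfx.calc_congr (fun i j => (ha i j).1) hC)
  have hwe : ∀ i w, s i w ≠ 0 → ∃ ε : ℤˣ, (G ε (List.ofFn w) ∧ Even (List.ofFn w).length) ∧
      ∏ j, k (w j) = (((ε : ℤ) : ℝ) : ℂ) := by
    intro i w hw
    obtain ⟨ε, h1, h2⟩ := hwd i w hw
    refine ⟨ε, ⟨h1, ?_⟩, h2⟩
    rw [List.length_ofFn]
    by_contra hev
    apply hw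
    have h1 : t i = 0 :=
      Six.odd_zero hE.odd (Nat.not_even_iff_odd.1 hev) (hE.sys.even _ _ (hL.mem i))
    have h2 : gT x (s i) = t i := congrFun hL.eq i
    have h3 : s i = gT x⁻¹ (t i) := by rw [← h2, ← alg1.gT_mul, hx2, alg1.gT_one]
    rw [h3, h1, Six.gT_zero]
    rfl
  -- stable subspaces
  have hst : ∀ U : Submodule ℂ (I → ℂ), (∀ A ∈ stab D s, ∀ v ∈ U, A.mulVec v ∈ U) →
      (∀ e ∈ {e | ∃ z, At 2 z ∧ e = opM D z}, ∀ v ∈ U, e.mulVec v ∈ U) →
      StabU D At Γ (U.map (Matrix.toLin' x)) := by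
    intro U h1 h2
    exact Hsix.stabU_map hx1 (fun z hz => (com z hz).2.2) (fun z hz => h2 _ ⟨z, hz, rfl⟩)
      (g4 D s (Hsix.conjS Γ x) hL.min
        (Hsix.conjS_fix hL.grp hL.eq hE.grp hE.gfix hL.mem) U h1)
  have hinj : Function.Injective (Matrix.toLin' x) := by
    intro v w hvw
    have h1 := congrArg (Matrix.toLin' x⁻¹) hvw
    rwa [← LinearMap.comp_apply, ← LinearMap.comp_apply, ← Matrix.toLin'_mul, hx2,
      Matrix.toLin'_one, LinearMap.id_apply, LinearMap.id_apply] at h1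
  have hbot : ∀ U : Submodule ℂ (I → ℂ), U.map (Matrix.toLin' x) = ⊥ → U = ⊥ := by
    intro U h1
    rw [eq_bot_iff]
    intro v hv
    have h2 : Matrix.toLin' x v ∈ U.map (Matrix.toLin' x) := ⟨v, hv, rfl⟩
    rw [h1, Submodule.mem_bot] at h2
    rw [Submodule.mem_bot]
    exact hinj (by rw [h2, map_zero])
  -- the minimal subspaces correspond
  have hxx : ∀ v, x.mulVec (x⁻¹.mulVec v) = v := fun v => by
    rw [Matrix.mulVec_mulVec, hx1, Matrix.one_mulVec]
  have hmin : ∀ U : Submodule ℂ (I → ℂ),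
      MinS (Six.stabS alg1 D s) {e | ∃ z, At 2 z ∧ e = opM D z} U →
      MinStab D At Γ (U.map (Matrix.toLin' x)) := by
    rintro U ⟨⟨h1, h2⟩, h0, h3⟩
    refine ⟨fun h => h0 (hbot U h), hst U h1 h2, ?_⟩
    intro W hW hW0 hWs
    have h4 : W.comap (Matrix.toLin' x) = U := by
      refine h3 _ ?_ ⟨?_, ?_⟩ ?_
      · intro v hv
        obtain ⟨v', hv', he⟩ := hW hv
        rwa [hinj he] at hv'
      · intro A hA v hv
        show Matrix.toLin' x _ ∈ W
        rw [Matrix.toLin'_apply]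
        exact hful W hWs A hA v hv
      · rintro _ ⟨z, hz, rfl⟩ v hv
        show Matrix.toLin' x _ ∈ W
        rw [Matrix.toLin'_apply, Matrix.mulVec_mulVec, ← (com z hz).2.2, ← Matrix.mulVec_mulVec]
        exact hWs.1 z hz _ hv
      · intro h5
        apply hW0
        rw [eq_bot_iff]
        intro w hw
        have h6 : x⁻¹.mulVec w ∈ W.comap (Matrix.toLin' x) := by
          show Matrix.toLin' x _ ∈ W
          rwa [Matrix.toLin'_apply, hxx]
        rw [h5, Submodule.mem_bot] at h6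
        rw [Submodule.mem_bot, ← hxx w, h6, Matrix.mulVec_zero]
    rw [← h4]
    apply le_antisymm
    · intro w hw
      refine ⟨x⁻¹.mulVec w, ?_, ?_⟩
      · show Matrix.toLin' x _ ∈ W
        rwa [Matrix.toLin'_apply, hxx]
      · rw [Matrix.toLin'_apply, hxx]
    · rintro _ ⟨v, hv, rfl⟩
      exact hv
  have hdim : ∀ U : Submodule ℂ (I → ℂ),
      Module.finrank ℂ (U.map (Matrix.toLin' x)) = Module.finrank ℂ U := fun U =>
    (LinearEquiv.finrank_eq (Submodule.equivMapOfInjective _ hinj U)).symm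
  have hsmall : Few6 (MinS (Six.stabS alg1 D s) {e | ∃ z, At 2 z ∧ e = opM D z}) := by
    intro U hU hind
    have h1 := hfew (fun i => (U i).map (Matrix.toLin' x)) (fun i => hmin _ (hU i))
      (Wem.indep_map hinj hind)
    rwa [hdim, hdim] at h1
  have hr := r11 (Six.stabS alg1 D s) {e | ∃ z, At 2 z ∧ e = opM D z} (Psi D)
    (fun A hA B hB => Six.stab_br alg1 hA hB) (p2 D s hL.min)
    (by
      rintro _ ⟨z, hz, rfl⟩ A hA
      exact (com z hz).1 A hA)
    (by
      rintro _ ⟨z, hz, rfl⟩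
      exact Wem.adj hE.sys hE.odd hz)
    (fun A hA => hA.1.2) Hsix.psi_unit (Weleven.psi_transpose hE.odd) a har haS k
    (fun i j hij => h.blk i j ((ha i j).1 hij)) D.τ (fun ε v => G ε v ∧ Even v.length) D.τ_τ
    (Wfx.a_tau haS.1) hCa (fun ε v hv => hv.2)
    (w2 D s a (fun ε v => G ε v ∧ Even v.length) hCa fun i w hw => by
      obtain ⟨ε, hε, -⟩ := hwe i w hw
      exact ⟨ε, hε⟩)
    (by
      intro U h1 h2 h3
      have h4 := hiso (U.map (Matrix.toLin' x)) (hst U h1 h2) (by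
        rintro _ ⟨v, hv, rfl⟩ _ ⟨w, hw, rfl⟩
        rw [Matrix.toLin'_apply, Matrix.toLin'_apply, Hsix.psi_map hL.grp]
        exact h3 v hv w hw)
      exact hbot U h4)
    hsmall
  have hLm : L ≤ max m0 (max L 2) := (le_max_left L 2).trans (le_max_right m0 _)
  refine Six.pos_of alg1 hE.sys (hE.nd L) hL.grp
    (T := {v : Ten I L | ∃ i, ∃ h : len i = L, v = h ▸ t i}) ?_ (hL.span L hLm) ?_ u hu hu0
  · rintro _ ⟨i, rfl, rfl⟩
    exact hL.mem i
  · rintro _ ⟨i, rfl, rfl⟩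
    have h1 : gT x (s i) = t i := congrFun hL.eq i
    have h0 : gT x⁻¹ (t i) = s i := by rw [← h1, ← alg1.gT_mul, hx2, alg1.gT_one]
    have h3 : gT (Matrix.diagonal k) (s i) = s i :=
      hr (len i) (s i) (fun A hA => congrFun hA.2 i) (hwe i)
    have h2 : jT D (s i) = s i := (congrFun hL.key i).symm.trans h3
    change gT x (jT D (gT x⁻¹ (t i))) = t i
    rw [h0, h2, h1]

end Pool.Agent.Lib.MP_361a6f_ag.FL.E
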