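import Pool.Agent.Lib.MP_361a6f_ag.FL.E.P2
import Pool.Agent.Lib.MP_361a6f_ag.FL.E.P3
import Pool.Agent.Lib.MP_361a6f_ag.FL.E.G4
import Pool.Agent.Lib.MP_361a6f_ag.FL.E.G4b
import Pool.Agent.Lib.MP_361a6f_ag.FL.E5.W1X
import Pool.Agent.Lib.MP_361a6f_ag.FL.E5.W2
import Pool.Agent.Lib.MP_361a6f_ag.FL.EM.WM
import Pool.Agent.Lib.MP_361a6f_ag.FL.EM.R11M
import Pool.Agent.Lib.MP_361a6f_ag.FL.EM.Ful1

/-!
# Theorem EM in coordinates, without hypotheses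
-/

namespace Pool.Agent.Lib.MP_361a6f_ag.FL

/-- Theorem EM in coordinates. -/
theorem E.thmM : E.ThmMStatement :=
  E.wm E5.w1x E.w2 E.Mn.r11M E.ful1 E.p2 E.p3 E.g4 E.g4b

end Pool.Agent.Lib.MP_361a6f_ag.FL
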