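import Pool.Agent.Lib.MP_361a6f_ag.FL.E5.Geo
import Pool.Agent.Lib.MP_361a6f_ag.FL.E.OrbG
import Pool.Agent.Lib.MP_361a6f_ag.FL.EM.NSM
import Pool.Agent.Lib.MP_361a6f_ag.FL.EM.Ful2
import Pool.Agent.Lib.MP_361a6f_ag.FL.EM.StatEM
import Pool.Agent.Lib.MP_361a6f_ag.FL.EM.ThmM

/-!
# Theorem EM from Theorem EM in coordinates
-/

open CategoryTheory AlgebraicGeometry MonoidalCategory CartesianMonoidalCategory

universe u v w w'

set_option autoImplicit false

namespace Pool.Agent.Lib.MP_361a6f_ag.FL.E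

open Pool.Agent.Lib.MP_361a6f_ag.H3 Pool.Agent.Lib.MP_361a6f_ag.SQ
  Pool.Agent.Lib.MP_361a6f_ag.PP Pool.Agent.Lib.MP_361a6f_ag.FL.PT

namespace GeoM

open Pool.Agent.Lib.MP_361a6f_ag.FL.E.Orb

section hyp

variable {k : Type u} [Field k] {k' : Type v} [Field k'] {W : CohomologyData.{u, 0, w} k ℂ}
  {𝒱 : VarietyClass k} {W' : CohomologyData.{v, 0, w'} k' ℂ} {𝒱' : VarietyClass k'}
  (hW : IsWeilCohomology W 𝒱) {D : EQ.Data W W'}
  (h : EQ.Hyp 𝒱 𝒱' D) (c : Hst.Core W D.X D.g D.ξ)

/-- the classes of degree one with given coordinates -/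
noncomputable abbrev cl : (Sub c.D (0, 1) → ℂ) →ₗ[ℂ] W.coh D.X := cl1 c hW h.mem h.div.1

theorem cl_inj : Function.Injective (cl hW h c) := cls_inj (H := hst hW h c) (ge _)

theorem range_cl : LinearMap.range (cl hW h c) = W.gr D.X 1 :=
  range_cls (H := hst hW h c) staB (ge _)

/-- a stable subspace of `H^1(X)` gives a stable subspace of the coordinate space -/
theorem stabU_of {U : Submodule ℂ (W.coh D.X)} (hU : EQ.Stable W D.X D.g U) :
    StabU (subD c.D (0, 1)) (At1 (hst hW h c)) (E.blk '' Ful.symSet hW h c)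
      (U.comap (cl hW h c)) := by
  constructor
  · intro z hz v hv
    obtain ⟨γ, hγ, hc⟩ := cor_of_at (hst hW h c) hz
    have h1 : cor W γ (vec1 (hst hW h c) v) ∈ U := hU.act γ hγ _ hv
    rw [hc] at h1
    exact h1
  · let f : Submodule ℂ (Sub c.D (0, 1) → ℂ) → Set (W.coh D.X) :=
      fun V => (V.map (cl hW h c) : Set (W.coh D.X))
    have hf : Function.Injective f := fun V V' e =>
      Submodule.map_injective_of_injective (cl_inj hW h c) (SetLike.coe_injective e)
    refine (hU.fin.preimage hf.injOn).subset ?_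
    rintro _ ⟨_, ⟨_, ⟨T, hT, rfl⟩, rfl⟩, rfl⟩
    refine ⟨fun P => T P, isSym_of hT, fun y => ?_⟩
    have key : ∀ v : Sub c.D (0, 1) → ℂ, (T (.leaf 0) (cl hW h c v) : W.coh D.X) =
        cl hW h c ((blk (SymM.mat (hst hW h c) (T (.leaf 0)))).mulVec v) := fun v =>
      map_cls (H := hst hW h c) (ge _) (fun i j hij => SymM.mat_typ (hst hW h c) hT i j hij)
        (T := fun z => T (.leaf 0) z)
        (fun z => SymM.tc_sym (hst hW h c) hT (.leaf 0) z) v
    constructor
    · rintro ⟨_, ⟨v, hv, rfl⟩, rfl⟩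
      refine ⟨cl hW h c v, hv, ?_⟩
      exact key v
    · rintro ⟨x, hx, rfl⟩
      have hx1 : x ∈ LinearMap.range (cl hW h c) := by
        rw [range_cl]
        exact hU.le hx
      obtain ⟨v, rfl⟩ := hx1
      exact ⟨_, ⟨v, hx, rfl⟩, (key v).symm⟩

/-- a minimal stable subspace of the coordinate space gives one of `H^1(X)` -/
theorem minStab_of {U : Submodule ℂ (Sub c.D (0, 1) → ℂ)}
    (hU : MinStab (subD c.D (0, 1)) (At1 (hst hW h c)) (E.blk '' Ful.symSet hW h c) U) :
    EQ.MinStab W D.X D.g (U.map (cl hW h c)) where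
  stable := stable_core c hW h.mem h.div.1 _ (Ful.isMats_symSet hW h c).blk
    (Ful.isMats_symSet hW h c).sym hU.2.1
  ne := fun h0 => hU.1 (by
    rw [← Submodule.map_bot (cl hW h c)] at h0
    exact Submodule.map_injective_of_injective (cl_inj hW h c) h0)
  min := fun U' hs hle hne => by
    have h1 : (U'.comap (cl hW h c)).map (cl hW h c) = U' := by
      rw [Submodule.map_comap_eq, range_cl]
      exact inf_eq_right.2 hs.le
    have h2 : U'.comap (cl hW h c) ≤ U := by
      intro v hv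
      obtain ⟨v', hv', e⟩ := hle hv
      rwa [← cl_inj hW h c e]
    rw [← hU.2.2 _ h2 (fun h0 => hne (by rw [← h1, h0, Submodule.map_bot])) (stabU_of hW h c hs),
      h1]

/-- the condition on six minimal stable subspaces -/
theorem few_of (few : EQ.Parts W D.X D.g D.ξ) :
    Few6 (MinStab (subD c.D (0, 1)) (At1 (hst hW h c)) (E.blk '' Ful.symSet hW h c)) := by
  intro U hU hi
  have h1 := few.few (fun i => (U i).map (cl hW h c)) (fun i => minStab_of hW h c (hU i))
    (indep_map (cl_inj hW h c) hi)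
  have h2 : ∀ V : Submodule ℂ (Sub c.D (0, 1) → ℂ),
      Module.finrank ℂ (V.map (cl hW h c)) = Module.finrank ℂ V := fun V =>
    (LinearEquiv.finrank_eq (Submodule.equivMapOfInjective (cl hW h c) (cl_inj hW h c) V)).symm
  simp only [h2] at h1
  exact h1

variable (hW' : IsWeilCohomology W' 𝒱') (hM : EQ.Moving W' D.X' D.g (D.s (.leaf 0) D.ξ))

include hW' hM in
/-- positivity -/
theorem pos1_EM (thm : ThmMStatement) (few : EQ.Parts W D.X D.g D.ξ) :
    EndE.Pos1 (hst hW h c) :=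
  EndE.pos1_of _ fun L u hu h0 =>
    ofM mainY alg1 alg2 thm
      (nsys_hyp hW hW' h c _ (grp1 hW h c (Ful.isMats_symSet hW h c))
        (gfix1 hW h c (Ful.isMats_symSet hW h c)) (nd1 hW h c (Ful.isMats_symSet hW h c) few.iso))
      (four_hyp hW hW' h hM c) (Ful.full_symSet hW h c)
      (K6.h1_iso c hW h.mem h.div.1 _ (Ful.isMats_symSet hW h c).blk
        (Ful.isMats_symSet hW h c).sym h.div few.iso) (few_of hW h c few) L u
      (Submodule.subset_span hu) h0

end hyp

end GeoM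

/-- **Theorem EM** from Theorem EM in coordinates. -/
theorem thmEM_of (thm : ThmMStatement) : ThmEM.{u, v, w, w'} := by
  intro k _ W 𝒱 hW k' _ W' 𝒱' hW' D h hM few P η hη
  obtain ⟨c⟩ := Hst.exists_core_hyp hW h
  exact of_pos1 hW h c (GeoM.pos1_EM hW h c hW' hM thm few) P η hη

end Pool.Agent.Lib.MP_361a6f_ag.FL.E

namespace Pool.Agent.Lib.MP_361a6f_ag.FL

/-- **Theorem EM.** -/
theorem thmEM : ThmEM.{u, v, w, w'} := E.thmEM_of E.thmM

end Pool.Agent.Lib.MP_361a6f_ag.FL
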