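import Pool.Agent.Lib.MP_361a6f_ag.FL.E11.Mat
import Pool.Agent.Lib.MP_361a6f_ag.FL.E11.Em

/-!
# Theorem EM: the weights of a stable subspace

`U` is a subspace that is stable under `h` and on which the form of `P` is nondegenerate.
-/

set_option autoImplicit false
set_option linter.unusedSectionVars false

open Matrix Module
open scoped InnerProductSpace

namespace Pool.Agent.Lib.MP_361a6f_ag.FL.E11

open E E.LemR

variable {I : Type} [Fintype I] [DecidableEq I] {h : Submodule ℂ (Matrix I I ℂ)} {κ : I → ℂ}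

/-- the vector `u` has the weight `v` -/
def HasWt (v : rt h) (u : I → ℂ) : Prop := ∀ i, u i ≠ 0 → wt h i = v

/-- the weights of `U` -/
def WtU (h : Submodule ℂ (Matrix I I ℂ)) (U : Submodule ℂ (I → ℂ)) : Set (rt h) :=
  {v | ∃ u ∈ U, u ≠ 0 ∧ HasWt v u}

/-- `U` is stable and nondegenerate -/
structure Nice (h : Submodule ℂ (Matrix I I ℂ)) (P : Matrix I I ℂ) (U : Submodule ℂ (I → ℂ)) :
    Prop where
  stab : ∀ A ∈ h, ∀ u ∈ U, A *ᵥ u ∈ U
  nd : ∀ u ∈ U, (∀ w ∈ U, u ⬝ᵥ (P *ᵥ w) = 0) → u = 0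

theorem RootSit0_of (hS : Sit h κ)
    (hEQ : ∀ i j, (∀ T, diagonal T ∈ h → T i = T j) → κ i = κ j)
    (pairs : ∀ i, ∃ a b, Conn h κ i a ∧ Conn h κ i b ∧ ∀ T, diagonal T ∈ h → T a + T b = 0) :
    RootSit0 (wt h) (Rt h κ) :=
  ⟨fun h0 => h0.1 rfl, Rt_neg hS, fun l => Rt_int hS (intS h κ hS) l, Rt_dif hS, Rt_add hS,
    Rt_mov hS, two_mem hS hEQ pairs⟩

/-! ### Weight vectors -/

theorem wt_eq_iff (hS : Sit h κ) (i j : I) :
    wt h i = wt h j ↔ ∀ T, diagonal T ∈ h → T i = T j := by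
  constructor
  · intro hij T hT
    rw [← ev_wt hS i hT, ← ev_wt hS j hT, hij]
  · intro hij
    exact ev_ext fun T hT => by rw [ev_wt hS i hT, ev_wt hS j hT, hij T hT]

/-- the projection to the vectors of weight `v` -/
noncomputable def pr (v : rt h) (u : I → ℂ) : I → ℂ :=
  open scoped Classical in fun i => if wt h i = v then u i else 0

theorem pr_apply {v : rt h} (u : I → ℂ) {i : I} (hi : wt h i = v) : pr v u i = u i := by
  unfold pr
  rw [if_pos hi]

theorem pr_apply_ne {v : rt h} (u : I → ℂ) {i : I} (hi : wt h i ≠ v) : pr v u i = 0 := by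
  unfold pr
  rw [if_neg hi]

theorem hasWt_pr (v : rt h) (u : I → ℂ) : HasWt v (pr v u) := by
  intro i hi
  by_contra h0
  exact hi (pr_apply_ne u h0)

/-- the diagonal matrices that preserve `U` -/
def dalg (U : Submodule ℂ (I → ℂ)) : Subalgebra ℂ (I → ℂ) where
  carrier := {m | ∀ u ∈ U, (fun i => m i * u i) ∈ U}
  mul_mem' := by
    intro m n hm hn u hu
    refine (congrArg (· ∈ U) ?_).mp (hm _ (hn u hu))
    funext i
    simp [mul_assoc]
  one_mem' := by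
    intro u hu
    refine (congrArg (· ∈ U) ?_).mp hu
    funext i
    simp
  add_mem' := by
    intro m n hm hn u hu
    refine (congrArg (· ∈ U) ?_).mp (U.add_mem (hm u hu) (hn u hu))
    funext i
    simp [add_mul]
  zero_mem' := by
    intro u hu
    refine (congrArg (· ∈ U) ?_).mp U.zero_mem
    funext i
    simp
  algebraMap_mem' := by
    intro r u hu
    refine (congrArg (· ∈ U) ?_).mp (U.smul_mem r hu)
    funext i
    simp [Pi.algebraMap_apply]

theorem pr_mem (hS : Sit h κ) {U : Submodule ℂ (I → ℂ)} (hU : ∀ A ∈ h, ∀ u ∈ U, A *ᵥ u ∈ U)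
    (v : rt h) {u : I → ℂ} (hu : u ∈ U) : pr v u ∈ U := by
  by_cases hv : ∃ p, wt h p = v
  · obtain ⟨p, hp⟩ := hv
    set A : Subalgebra ℂ (I → ℂ) := Algebra.adjoin ℂ {T | diagonal T ∈ h} with hA
    have hle : A ≤ dalg U := by
      rw [hA, Algebra.adjoin_le_iff]
      intro T hT w hw
      refine (congrArg (· ∈ U) ?_).mp (hU _ hT w hw)
      funext i
      rw [Matrix.mulVec_diagonal]
    have hsep : ∀ q, wt h q = wt h p → ∀ f ∈ A, f q = f p := by
      intro q hq f hf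
      induction hf using Algebra.adjoin_induction with
      | mem f hf => exact (wt_eq_iff hS q p).1 hq f hf
      | algebraMap r => rfl
      | add f g _ _ hf hg => rw [Pi.add_apply, Pi.add_apply, hf, hg]
      | mul f g _ _ hf hg => rw [Pi.mul_apply, Pi.mul_apply, hf, hg]
    obtain ⟨e, he, he1, he2⟩ := exists_bump A p
    refine (congrArg (· ∈ U) ?_).mp (hle he u hu)
    funext q
    by_cases hq : wt h q = v
    · rw [pr_apply u hq, hsep q (hq.trans hp.symm) e he, he1, one_mul]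
    · rw [pr_apply_ne u hq]
      have h0 : e q = 0 := by
        by_contra h0
        apply hq
        rw [← hp]
        exact (wt_eq_iff hS q p).2 fun T hT => he2 q h0 T (Algebra.subset_adjoin hT)
      rw [h0, zero_mul]
  · have h0 : pr v u = 0 := by
      funext i
      exact pr_apply_ne u fun hi => hv ⟨i, hi⟩
    rw [h0]
    exact U.zero_mem

/-! ### Lowering -/

/-- `x*` lowers the weight -/
theorem hasWt_low (hS : Sit h κ) {a v : rt h} {x : Matrix I I ℂ} {α : (I → ℂ) → ℂ} {c : ℂ}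
    (hx : Hom h κ x α c) (ha : ∀ T, diagonal T ∈ h → ev a T = α T) {u : I → ℂ}
    (hu : HasWt v u) : HasWt (v - a) (xᴴ *ᵥ u) := by
  intro i hi
  obtain ⟨j, -, hj⟩ := Finset.exists_ne_zero_of_sum_ne_zero hi
  have h1 : x j i ≠ 0 := by
    intro h0
    apply hj
    simp [Matrix.conjTranspose_apply, h0]
  have h2 : u j ≠ 0 := right_ne_zero_of_mul hj
  rw [← hu j h2, ← wt_sub hS hx ha h1, sub_sub_cancel]

/-- RAISE: `x*` is injective on the vectors of weight `v` with `0 < (v, a)` -/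
theorem low_ne (hS : Sit h κ) {a v : rt h} {x : Matrix I I ℂ} {α : (I → ℂ) → ℂ} {c : ℂ}
    (hx : Hom h κ x α c) (ha : ∀ T, diagonal T ∈ h → ev a T = α T) {u : I → ℂ}
    (hu : HasWt v u) (hpos : 0 < ⟪v, a⟫_ℝ) (h0 : u ≠ 0) : xᴴ *ᵥ u ≠ 0 := by
  intro hz
  -- the square norms
  have hn : ∀ w : I → ℂ, (star w ⬝ᵥ w) = ((∑ i, ‖w i‖ ^ 2 : ℝ) : ℂ) := by
    intro w
    rw [dotProduct]
    push_cast
    refine Finset.sum_congr rfl fun i _ => ?_
    rw [Pi.star_apply, ← Complex.conj_mul']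
    rfl
  have h1 : star u ⬝ᵥ ((x * xᴴ - xᴴ * x) *ᵥ u) = -(star (x *ᵥ u) ⬝ᵥ (x *ᵥ u)) := by
    rw [Matrix.sub_mulVec, ← Matrix.mulVec_mulVec, hz, Matrix.mulVec_zero, zero_sub,
      dotProduct_neg, ← Matrix.mulVec_mulVec, Matrix.star_mulVec, Matrix.dotProduct_mulVec]
  have h2 : star u ⬝ᵥ ((x * xᴴ - xᴴ * x) *ᵥ u)
      = ((nrm x * ⟪a, v⟫_ℝ * ∑ i, ‖u i‖ ^ 2 : ℝ) : ℂ) := by
    have h3 : (x * xᴴ - xᴴ * x) *ᵥ u = ((nrm x * ⟪a, v⟫_ℝ : ℝ) : ℂ) • u := by
      rw [diag_tt hS hx]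
      funext i
      rw [Matrix.mulVec_diagonal, Pi.smul_apply, smul_eq_mul]
      by_cases hi : u i = 0
      · rw [hi, mul_zero, mul_zero]
      · have h4 : tt x i = ((nrm x * ⟪a, v⟫_ℝ : ℝ) : ℂ) := by
          rw [← ev_tt hS hx ha, ← hu i hi, ev_wt hS i (mem_tt hS hx)]
        rw [h4]
    rw [h3, dotProduct_smul, hn, smul_eq_mul]
    push_cast
    ring
  rw [h2, hn] at h1
  have h5 : nrm x * ⟪a, v⟫_ℝ * ∑ i, ‖u i‖ ^ 2 = -∑ i, ‖(x *ᵥ u) i‖ ^ 2 := by
    exact_mod_cast h1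
  have h6 : 0 ≤ ∑ i, ‖(x *ᵥ u) i‖ ^ 2 := Finset.sum_nonneg fun _ _ => by positivity
  have h7 : 0 < ∑ i, ‖u i‖ ^ 2 := by
    obtain ⟨i, hi⟩ : ∃ i, u i ≠ 0 := Function.ne_iff.1 h0
    have h8 : 0 < ‖u i‖ ^ 2 := by positivity
    have h9 : ‖u i‖ ^ 2 ≤ ∑ i, ‖u i‖ ^ 2 :=
      Finset.single_le_sum (f := fun i => ‖u i‖ ^ 2) (fun _ _ => by positivity)
        (Finset.mem_univ i)
    linarith
  have h8 : 0 < nrm x * ⟪a, v⟫_ℝ * ∑ i, ‖u i‖ ^ 2 := by
    rw [real_inner_comm]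
    exact mul_pos (mul_pos (nrm_pos hx.ne) hpos) h7
  linarith

variable {P : Matrix I I ℂ} {U : Submodule ℂ (I → ℂ)}

theorem Nice.mov (hU : Nice h P U) (hS : Sit h κ) {v : rt h} (hv : v ∈ WtU h U) {a : rt h}
    (ha : a ∈ Rt h κ) (hpos : 0 < ⟪v, a⟫_ℝ) : v - a ∈ WtU h U := by
  obtain ⟨u, huU, hu0, hu⟩ := hv
  obtain ⟨-, x, α, c, hx, hxa⟩ := ha
  exact ⟨xᴴ *ᵥ u, hU.stab _ (hS.star _ hx.mem) u huU, low_ne hS hx hxa hu hpos hu0,
    hasWt_low hS hx hxa hu⟩

/-! ### The form -/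

theorem wt_add_of_P (hS : Sit h κ) (hP : ∀ A ∈ h, A.transpose * P + P * A = 0) {i j : I}
    (hij : P i j ≠ 0) : wt h i = -wt h j := by
  refine wt_neg_of hS fun T hT => ?_
  have h2 := congrFun (congrFun (hP _ hT) i) j
  rw [Matrix.diagonal_transpose, Matrix.add_apply, Matrix.diagonal_mul, Matrix.mul_diagonal,
    Matrix.zero_apply, mul_comm, ← mul_add] at h2
  exact (mul_eq_zero.1 h2).resolve_left hij

/-- the form pairs the weight `v` with the weight `-v` -/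
theorem dot_pr (hS : Sit h κ) (hP : ∀ A ∈ h, A.transpose * P + P * A = 0) {v : rt h}
    {u : I → ℂ} (hu : HasWt v u) (w : I → ℂ) :
    u ⬝ᵥ (P *ᵥ w) = u ⬝ᵥ (P *ᵥ pr (-v) w) := by
  rw [dotProduct, dotProduct]
  refine Finset.sum_congr rfl fun i _ => ?_
  by_cases hi : u i = 0
  · rw [hi, zero_mul, zero_mul]
  · congr 1
    rw [Matrix.mulVec, Matrix.mulVec, dotProduct, dotProduct]
    refine Finset.sum_congr rfl fun j _ => ?_
    by_cases hij : P i j = 0
    · rw [hij, zero_mul, zero_mul]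
    · rw [pr_apply w]
      rw [← hu i hi, wt_add_of_P hS hP hij, neg_neg]

theorem Nice.exists_pair (hU : Nice h P U) (hS : Sit h κ)
    (hP : ∀ A ∈ h, A.transpose * P + P * A = 0) {v : rt h} {u : I → ℂ} (huU : u ∈ U)
    (hu : HasWt v u) (h0 : u ≠ 0) : ∃ w ∈ U, HasWt (-v) w ∧ u ⬝ᵥ (P *ᵥ w) ≠ 0 := by
  by_contra hc
  push Not at hc
  refine h0 (hU.nd u huU fun w hw => ?_)
  rw [dot_pr hS hP hu]
  exact hc _ (pr_mem hS hU.stab _ hw) (hasWt_pr _ _)

theorem Nice.neg (hU : Nice h P U) (hS : Sit h κ)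
    (hP : ∀ A ∈ h, A.transpose * P + P * A = 0) {v : rt h} (hv : v ∈ WtU h U) :
    -v ∈ WtU h U := by
  obtain ⟨u, huU, hu0, hu⟩ := hv
  obtain ⟨w, hw, hwt, hne⟩ := hU.exists_pair hS hP huU hu hu0
  refine ⟨w, hw, ?_, hwt⟩
  rintro rfl
  rw [Matrix.mulVec_zero, dotProduct_zero] at hne
  exact hne rfl

/-- vectors of different weights are independent -/
theorem card_le (F : Finset (rt h)) (hF : ∀ v ∈ F, v ∈ WtU h U) : F.card ≤ finrank ℂ U := by
  classical
  choose u hu using fun v : F => hF v.1 v.2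
  have hli : LinearIndependent ℂ fun v : F => (⟨u v, (hu v).1⟩ : U) := by
    refine LinearIndependent.of_comp U.subtype ?_
    rw [Fintype.linearIndependent_iff]
    intro g hg v
    obtain ⟨i, hi⟩ : ∃ i, u v i ≠ 0 := Function.ne_iff.1 (hu v).2.1
    have h1 := congrFun hg i
    rw [Finset.sum_apply, Finset.sum_eq_single v] at h1
    · simp only [Function.comp_apply, Submodule.subtype_apply, Pi.smul_apply, smul_eq_mul,
        Pi.zero_apply] at h1
      exact (mul_eq_zero.1 h1).resolve_right hi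
    · intro w _ hwv
      have h2 : u w i = 0 := by
        by_contra h0
        exact hwv (Subtype.ext (((hu w).2.2 i h0).symm.trans ((hu v).2.2 i hi)))
      simp [h2]
    · intro h0
      exact absurd (Finset.mem_univ v) h0
  have h1 := hli.fintype_card_le_finrank
  rwa [Fintype.card_coe] at h1

/-- invariance of the form -/
theorem dot_inv (hP : ∀ A ∈ h, A.transpose * P + P * A = 0) {A : Matrix I I ℂ} (hA : A ∈ h)
    (u w : I → ℂ) : u ⬝ᵥ (P *ᵥ (A *ᵥ w)) = -((A *ᵥ u) ⬝ᵥ (P *ᵥ w)) := by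
  have h1 : P * A = -(Aᵀ * P) := by
    have h2 := hP A hA
    rw [add_comm] at h2
    exact eq_neg_of_add_eq_zero_left h2
  rw [Matrix.mulVec_mulVec, h1, Matrix.neg_mulVec, dotProduct_neg, ← Matrix.mulVec_mulVec,
    Matrix.dotProduct_mulVec u Aᵀ, Matrix.vecMul_transpose]

theorem dot_skew (hPt : Pᵀ = -P) (u w : I → ℂ) : u ⬝ᵥ (P *ᵥ w) = -(w ⬝ᵥ (P *ᵥ u)) := by
  rw [Matrix.dotProduct_mulVec, ← Matrix.mulVec_transpose, hPt, Matrix.neg_mulVec,
    neg_dotProduct, dotProduct_comm]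

end Pool.Agent.Lib.MP_361a6f_ag.FL.E11
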