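import Pool.Agent.Lib.MP_361a6f_ag.FL.EM.DefsM
import Pool.Agent.Lib.MP_361a6f_ag.FL.EM.Piece
import Pool.Agent.Lib.MP_361a6f_ag.FL.E.H5

/-!
# Theorem EM: the minimal stable subspaces

If there is no isotropic stable subspace, every non-zero linear form is non-zero on a minimal stable
subspace. In the frame a letter `l` gets a minimal stable subspace with the weight of `l`, and it is
contained in the coordinate subspace of the class of `l`.
-/

set_option autoImplicit false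
set_option linter.unusedSectionVars false

open Matrix Module

namespace Pool.Agent.Lib.MP_361a6f_ag.FL.E.Mn

variable {I : Type} [Fintype I] {S : Submodule ℂ (Matrix I I ℂ)} {E : Set (Matrix I I ℂ)}
  {P : Matrix I I ℂ} {U W : Submodule ℂ (I → ℂ)}

theorem inf_StS (hU : StS S E U) (hW : StS S E W) : StS S E (U ⊓ W) :=
  ⟨fun A hA v hv => ⟨hU.1 A hA v hv.1, hW.1 A hA v hv.2⟩,
    fun e he v hv => ⟨hU.2 e he v hv.1, hW.2 e he v hv.2⟩⟩

/-- a non-zero stable subspace contains a minimal one -/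
theorem exists_min : ∀ (n : ℕ) {U : Submodule ℂ (I → ℂ)}, finrank ℂ U ≤ n → StS S E U → U ≠ ⊥ →
    ∃ M, M ≤ U ∧ MinS S E M := by
  intro n
  induction n with
  | zero =>
    intro U hn _ h0
    exact absurd (Submodule.finrank_eq_zero.1 (Nat.le_zero.1 hn)) h0
  | succ n ih =>
    intro U hn hU h0
    by_cases hm : ∃ W, W ≤ U ∧ StS S E W ∧ W ≠ ⊥ ∧ W ≠ U
    · obtain ⟨W, hW1, hW2, hW3, hW4⟩ := hm
      have h1 := Submodule.finrank_lt_finrank_of_lt (lt_of_le_of_ne hW1 hW4)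
      obtain ⟨M, hM1, hM2⟩ := ih (by omega) hW2 hW3
      exact ⟨M, hM1.trans hW1, hM2⟩
    · refine ⟨U, le_rfl, hU, h0, fun W hW1 hW2 hW3 => ?_⟩
      by_contra hW4
      exact hm ⟨W, hW1, hW2, hW3, hW4⟩

/-- the orthogonal of `U` -/
def orth (P : Matrix I I ℂ) (U : Submodule ℂ (I → ℂ)) : Submodule ℂ (I → ℂ) where
  carrier := {w | ∀ v ∈ U, v ⬝ᵥ (P *ᵥ w) = 0}
  add_mem' := by
    intro w w' h1 h2 v hv
    rw [Matrix.mulVec_add, dotProduct_add, h1 v hv, h2 v hv, add_zero]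
  zero_mem' := by
    intro v _
    rw [Matrix.mulVec_zero, dotProduct_zero]
  smul_mem' := by
    intro c w h1 v hv
    rw [Matrix.mulVec_smul, dotProduct_smul, h1 v hv, smul_zero]

theorem orth_StS (hP : ∀ A ∈ S, A.transpose * P + P * A = 0)
    (hEP : ∀ e ∈ E, ∃ f ∈ E, f.transpose * P = P * e) (hU : StS S E U) :
    StS S E (orth P U) := by
  constructor
  · intro A hA w hw v hv
    have h1 : P * A = -(Aᵀ * P) := eq_neg_of_add_eq_zero_right (hP A hA)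
    rw [Matrix.mulVec_mulVec, h1, Matrix.neg_mulVec, dotProduct_neg, ← Matrix.mulVec_mulVec,
      Matrix.dotProduct_mulVec, Matrix.vecMul_transpose, hw _ (hU.1 A hA v hv), neg_zero]
  · intro e he w hw v hv
    obtain ⟨f, hf, h1⟩ := hEP e he
    rw [Matrix.mulVec_mulVec, ← h1, ← Matrix.mulVec_mulVec, Matrix.dotProduct_mulVec,
      Matrix.vecMul_transpose]
    exact hw _ (hU.2 f hf v hv)

/-- the form is non-degenerate on stable subspaces -/
theorem nd_of_iso [DecidableEq I] (hP : ∀ A ∈ S, A.transpose * P + P * A = 0)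
    (hEP : ∀ e ∈ E, ∃ f ∈ E, f.transpose * P = P * e) (hskew : P.transpose = -P)
    (hiso : ∀ U : Submodule ℂ (I → ℂ), (∀ A ∈ S, ∀ v ∈ U, A.mulVec v ∈ U) →
      (∀ e ∈ E, ∀ v ∈ U, e.mulVec v ∈ U) →
      (∀ v ∈ U, ∀ w ∈ U, dotProduct v (P.mulVec w) = 0) → U = ⊥) (hU : StS S E U) :
    ∀ v ∈ U, (∀ w ∈ U, v ⬝ᵥ (P *ᵥ w) = 0) → v = 0 := by
  intro v hv h0
  have h1 : StS S E (U ⊓ orth P U) := inf_StS hU (orth_StS hP hEP hU)
  have h2 := hiso _ h1.1 h1.2 fun v hv w hw => hw.2 v hv.1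
  have h3 : v ∈ U ⊓ orth P U :=
    ⟨hv, fun w hw => by rw [E11.dot_skew hskew, h0 w hw, neg_zero]⟩
  rw [h2] at h3
  exact (Submodule.mem_bot ℂ).1 h3

/-- a non-zero linear form is non-zero on a minimal stable subspace -/
theorem exists_meet [DecidableEq I] (hP : ∀ A ∈ S, A.transpose * P + P * A = 0)
    (hEP : ∀ e ∈ E, ∃ f ∈ E, f.transpose * P = P * e) (hu : IsUnit P)
    (hiso : ∀ U : Submodule ℂ (I → ℂ), (∀ A ∈ S, ∀ v ∈ U, A.mulVec v ∈ U) →
      (∀ e ∈ E, ∀ v ∈ U, e.mulVec v ∈ U) →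
      (∀ v ∈ U, ∀ w ∈ U, dotProduct v (P.mulVec w) = 0) → U = ⊥) {c : I → ℂ} (hc : c ≠ 0) :
    ∃ M, MinS S E M ∧ ∃ v ∈ M, v ⬝ᵥ c ≠ 0 := by
  by_contra hcc
  push Not at hcc
  let Y : Submodule ℂ (I → ℂ) := ⨅ M : {M // MinS S E M}, orth P M.1
  have hY : StS S E Y :=
    ⟨fun A hA w hw => (Submodule.mem_iInf _).2 fun M =>
        (orth_StS hP hEP M.2.1).1 A hA w ((Submodule.mem_iInf _).1 hw M),
      fun e he w hw => (Submodule.mem_iInf _).2 fun M =>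
        (orth_StS hP hEP M.2.1).2 e he w ((Submodule.mem_iInf _).1 hw M)⟩
  obtain ⟨w, hw⟩ : ∃ w, P *ᵥ w = c :=
    ⟨P⁻¹ *ᵥ c, by
      rw [Matrix.mulVec_mulVec,
        Matrix.mul_nonsing_inv _ ((Matrix.isUnit_iff_isUnit_det P).1 hu), Matrix.one_mulVec]⟩
  have hwY : w ∈ Y := (Submodule.mem_iInf _).2 fun M v hv => by
    rw [hw]
    exact hcc M.1 M.2 v hv
  have hw0 : w ≠ 0 := by
    rintro rfl
    exact hc (by rw [← hw, Matrix.mulVec_zero])
  have hY0 : Y ≠ ⊥ := by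
    intro h0
    rw [h0] at hwY
    exact hw0 ((Submodule.mem_bot ℂ).1 hwY)
  obtain ⟨M, hM1, hM2⟩ := exists_min _ le_rfl hY hY0
  refine hM2.2.1 (hiso M hM2.1.1 hM2.1.2 fun v hv w hw => ?_)
  exact (Submodule.mem_iInf _).1 (hM1 hw) ⟨M, hM2⟩ v hv

open P5e

variable [DecidableEq I]

/-- the subspace `M` in the coordinates of the unitary matrix `B` -/
def tr (B : Matrix I I ℂ) (M : Submodule ℂ (I → ℂ)) : Submodule ℂ (I → ℂ) :=
  M.map (Matrix.toLin' Bᴴ)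

theorem mem_tr {B : Matrix I I ℂ} (hU1 : Bᴴ * B = 1) (hU2 : B * Bᴴ = 1)
    {M : Submodule ℂ (I → ℂ)} {x : I → ℂ} : x ∈ tr B M ↔ B *ᵥ x ∈ M := by
  constructor
  · rintro ⟨v, hv, rfl⟩
    rw [Matrix.toLin'_apply, Matrix.mulVec_mulVec, hU2, Matrix.one_mulVec]
    exact hv
  · intro hx
    refine ⟨B *ᵥ x, hx, ?_⟩
    rw [Matrix.toLin'_apply, Matrix.mulVec_mulVec, hU1, Matrix.one_mulVec]

theorem finrank_tr {B : Matrix I I ℂ} (hU2 : B * Bᴴ = 1) (M : Submodule ℂ (I → ℂ)) :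
    finrank ℂ (tr B M) = finrank ℂ M := by
  have h1 : LinearMap.ker (Matrix.toLin' Bᴴ) = ⊥ := by
    rw [LinearMap.ker_eq_bot']
    intro v hv
    rw [Matrix.toLin'_apply] at hv
    have h2 := congrArg (fun x => B *ᵥ x) hv
    simpa only [Matrix.mulVec_mulVec, hU2, Matrix.one_mulVec, Matrix.mulVec_zero] using h2
  exact (LinearEquiv.finrank_eq (Submodule.equivMapOfInjective _
    (LinearMap.ker_eq_bot.1 h1) M)).symm

theorem dot_tr {B : Matrix I I ℂ} (x y : I → ℂ) :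
    (B *ᵥ x) ⬝ᵥ (P *ᵥ (B *ᵥ y)) = x ⬝ᵥ ((Bᵀ * P * B) *ᵥ y) := by
  calc (B *ᵥ x) ⬝ᵥ (P *ᵥ (B *ᵥ y)) = x ⬝ᵥ (Bᵀ *ᵥ (P *ᵥ (B *ᵥ y))) := by
        rw [Matrix.dotProduct_mulVec x, Matrix.vecMul_transpose]
    _ = _ := by simp only [Matrix.mulVec_mulVec, Matrix.mul_assoc]

/-- the piece of a letter -/
theorem exists_piece {k κ : I → ℂ} {B : Matrix I I ℂ} (F : Frame S E k B κ)
    (hP : ∀ A ∈ S, A.transpose * P + P * A = 0)
    (hEP : ∀ e ∈ E, ∃ f ∈ E, f.transpose * P = P * e) (hskew : P.transpose = -P) (hu : IsUnit P)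
    (hiso : ∀ U : Submodule ℂ (I → ℂ), (∀ A ∈ S, ∀ v ∈ U, A.mulVec v ∈ U) →
      (∀ e ∈ E, ∀ v ∈ U, e.mulVec v ∈ U) →
      (∀ v ∈ U, ∀ w ∈ U, dotProduct v (P.mulVec w) = 0) → U = ⊥)
    {A : Type} (q : I → A) (hq : ∀ i j, LemR.Conn (conjS B S) κ i j → q i = q j) (l : I) :
    ∃ M, MinS S E M ∧ E11.Nice (conjS B S) (Bᵀ * P * B) (tr B M) ∧
      E11.wt (conjS B S) l ∈ E11.WtU (conjS B S) (tr B M) ∧ M ≤ H5.co B {i | q i = q l} := by
  have hS := F.sit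
  have hU1 := F.u1
  have hU2 := F.u2
  have hc : (fun i => Bᴴ l i) ≠ 0 := by
    intro h0
    have h1 := congrFun (congrFun hU1 l) l
    rw [Matrix.mul_apply, Matrix.one_apply_eq] at h1
    refine zero_ne_one (h1.symm.trans (Finset.sum_eq_zero fun i _ => ?_)).symm
    rw [show Bᴴ l i = 0 from congrFun h0 i, zero_mul]
  obtain ⟨M, hM, v, hv, hvl⟩ := exists_meet hP hEP hu hiso hc
  have hst : ∀ X ∈ conjS B S, ∀ x ∈ tr B M, X *ᵥ x ∈ tr B M := by
    intro X hX x hx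
    rw [mem_tr hU1 hU2] at hx ⊢
    have h1 := hM.1.1 _ (mem_conjS.1 hX) _ hx
    rw [Matrix.mulVec_mulVec, Matrix.mul_assoc, hU1, Matrix.mul_one,
      ← Matrix.mulVec_mulVec] at h1
    exact h1
  have hnd := nd_of_iso hP hEP hskew hiso hM.1
  have hx : Bᴴ *ᵥ v ∈ tr B M := by
    rw [mem_tr hU1 hU2, Matrix.mulVec_mulVec, hU2, Matrix.one_mulVec]
    exact hv
  have hxl : (Bᴴ *ᵥ v) l ≠ 0 := by
    rw [dotProduct_comm] at hvl
    exact hvl
  have hy := E11.pr_mem hS hst (E11.wt (conjS B S) l) hx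
  have hyl : E11.pr (E11.wt (conjS B S) l) (Bᴴ *ᵥ v) l ≠ 0 := by
    rw [E11.pr_apply _ rfl]
    exact hxl
  have hy0 : E11.pr (E11.wt (conjS B S) l) (Bᴴ *ᵥ v) ≠ 0 := by
    intro h0
    exact hyl (congrFun h0 l)
  have hyw := E11.hasWt_pr (E11.wt (conjS B S) l) (Bᴴ *ᵥ v)
  refine ⟨M, hM, ⟨hst, fun x hx h0 => ?_⟩, ⟨_, hy, hy0, hyw⟩, ?_⟩
  · rw [mem_tr hU1 hU2] at hx
    have h1 := hnd _ hx fun w hw => by
      have h2 : B *ᵥ (Bᴴ *ᵥ w) = w := by rw [Matrix.mulVec_mulVec, hU2, Matrix.one_mulVec]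
      rw [← h2, dot_tr]
      refine h0 _ ?_
      rw [mem_tr hU1 hU2, h2]
      exact hw
    have h3 := congrArg (fun z => Bᴴ *ᵥ z) h1
    simpa only [Matrix.mulVec_mulVec, hU1, Matrix.one_mulVec, Matrix.mulVec_zero] using h3
  · have hco : StS S E (H5.co B {i | q i = q l}) :=
      ⟨fun X hX => H5.co_stable hU2 X fun i hi j hj => by
          by_contra h0
          exact hi ((hq i j (LemR.Conn.step hS (F.mem X hX) h0 (LemR.Conn.refl j))).trans hj),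
        fun e he => H5.co_stable hU2 e fun i hi j hj => by
          by_contra h0
          exact hi ((hq i j (LemR.Conn.same (F.same e he i j h0).1 (F.same e he i j h0).2
            (LemR.Conn.refl j))).trans hj)⟩
    have h1 := hM.2.2 (M ⊓ H5.co B {i | q i = q l}) inf_le_left (inf_StS hM.1 hco) (by
      intro h0
      have h2 : B *ᵥ E11.pr (E11.wt (conjS B S) l) (Bᴴ *ᵥ v) ∈
          M ⊓ H5.co B {i | q i = q l} := by
        refine ⟨(mem_tr hU1 hU2).1 hy, fun i hi => ?_⟩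
        rw [Matrix.mulVec_mulVec, hU1, Matrix.one_mulVec]
        by_contra h3
        have h4 := (E11.wt_eq_iff hS i l).1 (hyw i h3)
        exact hi (hq i l (LemR.Conn.same h4 (F.eqv i l h4) (LemR.Conn.refl l)))
      rw [h0, Submodule.mem_bot] at h2
      have h3 := congrArg (fun z => (Bᴴ *ᵥ z) l) h2
      simp only [Matrix.mulVec_mulVec, hU1, Matrix.one_mulVec, Matrix.mulVec_zero,
        Pi.zero_apply] at h3
      exact hyl h3)
    exact inf_eq_left.1 h1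

end Pool.Agent.Lib.MP_361a6f_ag.FL.E.Mn
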