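import Pool.Agent.Lib.MP_361a6f_ag.FL.EM.Piece

/-!
# Theorem EM: eight dimensions inside a stable subspace
-/

set_option autoImplicit false
set_option linter.unusedSectionVars false

open Matrix Module
open scoped InnerProductSpace

namespace Pool.Agent.Lib.MP_361a6f_ag.FL.E11

open E E.LemR

variable {I : Type} [Fintype I] [DecidableEq I] {h : Submodule ℂ (Matrix I I ℂ)} {κ : I → ℂ}
  {P : Matrix I I ℂ} {U : Submodule ℂ (I → ℂ)}

theorem HasWt.add {v : rt h} {u w : I → ℂ} (hu : HasWt v u) (hw : HasWt v w) :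
    HasWt v (u + w) := by
  intro i hi
  by_cases h0 : u i = 0
  · refine hw i fun h1 => hi ?_
    rw [Pi.add_apply, h0, h1, add_zero]
  · exact hu i h0

theorem HasWt.smul {v : rt h} {u : I → ℂ} (hu : HasWt v u) (c : ℂ) : HasWt v (c • u) := by
  intro i hi
  refine hu i fun h1 => hi ?_
  rw [Pi.smul_apply, h1, smul_zero]

/-- two pairs of independent vectors of weight `v` and four injective maps to different weights -/
theorem eight_le {u w : I → ℂ} (A : Fin 4 → Matrix I I ℂ) (μ : Fin 4 → rt h)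
    (hμ : Function.Injective μ) (hu : ∀ n, A n *ᵥ u ∈ U) (hw : ∀ n, A n *ᵥ w ∈ U)
    (hwt : ∀ n (a b : ℂ), HasWt (μ n) (A n *ᵥ (a • u + b • w)))
    (hinj : ∀ n (a b : ℂ), A n *ᵥ (a • u + b • w) = 0 → a = 0 ∧ b = 0) :
    8 ≤ finrank ℂ U := by
  have hmem : ∀ (n : Fin 4) (z : ℂ × ℂ), A n *ᵥ (z.1 • u + z.2 • w) ∈ U := by
    intro n z
    rw [Matrix.mulVec_add, Matrix.mulVec_smul, Matrix.mulVec_smul]
    exact U.add_mem (U.smul_mem _ (hu n)) (U.smul_mem _ (hw n))
  let φ : (Fin 4 → ℂ × ℂ) →ₗ[ℂ] (I → ℂ) :=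
    { toFun := fun z => ∑ n, A n *ᵥ ((z n).1 • u + (z n).2 • w)
      map_add' := by
        intro z z'
        rw [← Finset.sum_add_distrib]
        refine Finset.sum_congr rfl fun n _ => ?_
        rw [← Matrix.mulVec_add]
        congr 1
        rw [Pi.add_apply, Prod.fst_add, Prod.snd_add, add_smul, add_smul]
        abel
      map_smul' := by
        intro c z
        rw [RingHom.id_apply, Finset.smul_sum]
        refine Finset.sum_congr rfl fun n _ => ?_
        rw [← Matrix.mulVec_smul]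
        congr 1
        rw [Pi.smul_apply, Prod.smul_fst, Prod.smul_snd, smul_add, smul_smul, smul_smul,
          smul_eq_mul, smul_eq_mul] }
  have hφ : ∀ z, φ z ∈ U := by
    intro z
    show ∑ n, A n *ᵥ ((z n).1 • u + (z n).2 • w) ∈ U
    exact U.sum_mem fun n _ => hmem n (z n)
  have hker : Function.Injective (φ.codRestrict U hφ) := by
    rw [← LinearMap.ker_eq_bot, LinearMap.ker_eq_bot']
    intro z hz
    have h0 : ∑ n, A n *ᵥ ((z n).1 • u + (z n).2 • w) = 0 := congrArg Subtype.val hz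
    have h1 : ∀ n, A n *ᵥ ((z n).1 • u + (z n).2 • w) = 0 := by
      intro n
      funext i
      by_cases hi : wt h i = μ n
      · have h2 := congrFun h0 i
        rw [Finset.sum_apply, Finset.sum_eq_single n] at h2
        · exact h2
        · intro m _ hm
          by_contra h3
          exact hm (hμ ((hwt m _ _ i h3).symm.trans hi))
        · intro h3
          exact absurd (Finset.mem_univ n) h3
      · by_contra h3
        exact hi (hwt n _ _ i h3)
    funext n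
    obtain ⟨ha, hb⟩ := hinj n _ _ (h1 n)
    exact Prod.ext ha hb
  have h3 := LinearMap.finrank_le_finrank_of_injective hker
  have h4 : finrank ℂ (Fin 4 → ℂ × ℂ) = 8 := by
    rw [Module.finrank_pi_fintype]
    simp [Module.finrank_prod]
  rwa [h4] at h3

/-- **Eight dimensions.** -/
theorem Nice.par (hU : Nice h P U) (hS : Sit h κ)
    (hP : ∀ A ∈ h, A.transpose * P + P * A = 0) (hPt : P.transpose = -P) {v : rt h}
    (hv : v ∈ WtU h U) {b c : rt h} (hb : b ∈ Rt h κ) (hc : c ∈ Rt h κ) (hbc : ⟪b, c⟫_ℝ = 0)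
    (h2 : v + v = b + c) (hn : v + v ∉ Rt h κ) : 8 ≤ finrank ℂ U := by
  obtain ⟨u, huU, hu0, hu⟩ := hv
  obtain ⟨hb0, x, α, e, hx, hxb⟩ := hb
  obtain ⟨hc0, y, β, f, hy, hyc⟩ := hc
  have hbb : 0 < ⟪b, b⟫_ℝ := real_inner_self_pos.2 hb0
  have hcc : 0 < ⟪c, c⟫_ℝ := real_inner_self_pos.2 hc0
  have hcb : ⟪c, b⟫_ℝ = 0 := by rw [real_inner_comm b c, hbc]
  have hne : b + c ≠ 0 := by
    intro h0
    have h3 : ⟪b + c, c⟫_ℝ = 0 := by rw [h0, inner_zero_left]
    rw [inner_add_left, hbc, zero_add] at h3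
    exact hcc.ne' h3
  have hxy : x * y = y * x := by
    by_contra hne'
    refine hn ⟨by rw [h2]; exact hne, _, _, _, hom_comm hS hx hy (sub_ne_zero.2 hne'),
      fun T hT => ?_⟩
    rw [h2, ev_add, hxb T hT, hyc T hT]
  have hxy' : xᴴ * yᴴ = yᴴ * xᴴ := by
    have h3 := congrArg Matrix.conjTranspose hxy
    rw [Matrix.conjTranspose_mul, Matrix.conjTranspose_mul] at h3
    exact h3.symm
  have hvb : 2 * ⟪v, b⟫_ℝ = ⟪b, b⟫_ℝ := by
    have h3 : ⟪v + v, b⟫_ℝ = ⟪b + c, b⟫_ℝ := by rw [h2]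
    rw [inner_add_left, inner_add_left, hcb] at h3
    linarith
  have hvc : 2 * ⟪v, c⟫_ℝ = ⟪c, c⟫_ℝ := by
    have h3 : ⟪v + v, c⟫_ℝ = ⟪b + c, c⟫_ℝ := by rw [h2]
    rw [inner_add_left, inner_add_left, hbc] at h3
    linarith
  have hpb : 0 < ⟪v, b⟫_ℝ := by linarith
  have hpc : 0 < ⟪v, c⟫_ℝ := by linarith
  have hpb' : 0 < ⟪v - c, b⟫_ℝ := by
    rw [inner_sub_left, hcb, sub_zero]
    exact hpb
  have hxm : xᴴ ∈ h := hS.star _ hx.mem
  have hym : yᴴ ∈ h := hS.star _ hy.mem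
  have hneg : v - c - b = -v := by
    have h3 : v - c - b = v - (b + c) := by abel
    rw [h3, ← h2]
    abel
  -- the alternating form
  have halt : ∀ s : I → ℂ, s ⬝ᵥ (P *ᵥ (xᴴ *ᵥ (yᴴ *ᵥ s))) = 0 := by
    intro s
    have h3 : s ⬝ᵥ (P *ᵥ (xᴴ *ᵥ (yᴴ *ᵥ s))) = -(s ⬝ᵥ (P *ᵥ (xᴴ *ᵥ (yᴴ *ᵥ s)))) := by
      calc s ⬝ᵥ (P *ᵥ (xᴴ *ᵥ (yᴴ *ᵥ s)))
          = (yᴴ *ᵥ (xᴴ *ᵥ s)) ⬝ᵥ (P *ᵥ s) := by
            rw [dot_inv hP hxm, dot_inv hP hym, neg_neg]
        _ = (xᴴ *ᵥ (yᴴ *ᵥ s)) ⬝ᵥ (P *ᵥ s) := by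
            rw [Matrix.mulVec_mulVec, ← hxy', ← Matrix.mulVec_mulVec]
        _ = -(s ⬝ᵥ (P *ᵥ (xᴴ *ᵥ (yᴴ *ᵥ s)))) := dot_skew hPt _ _
    linear_combination (1 / 2 : ℂ) * h3
  -- the second vector
  have hyu := low_ne hS hy hyc hu hpc hu0
  have hyuw := hasWt_low hS hy hyc hu
  have hz0 := low_ne hS hx hxb hyuw hpb' hyu
  have hzw := hasWt_low hS hx hxb hyuw
  have hzU : xᴴ *ᵥ (yᴴ *ᵥ u) ∈ U := hU.stab _ hxm _ (hU.stab _ hym _ huU)
  obtain ⟨w, hwU, hww, hzww⟩ := hU.exists_pair hS hP hzU hzw hz0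
  rw [hneg, neg_neg] at hww
  have hab : ∀ a b : ℂ, a • u + b • w = 0 → a = 0 ∧ b = 0 := by
    intro a b h0
    have h3 : b * ((xᴴ *ᵥ (yᴴ *ᵥ u)) ⬝ᵥ (P *ᵥ w)) = 0 := by
      have h4 : (xᴴ *ᵥ (yᴴ *ᵥ u)) ⬝ᵥ (P *ᵥ (a • u + b • w)) = 0 := by
        rw [h0, Matrix.mulVec_zero, dotProduct_zero]
      rw [Matrix.mulVec_add, Matrix.mulVec_smul, Matrix.mulVec_smul, dotProduct_add,
        dotProduct_smul, dotProduct_smul, dot_skew hPt _ u, halt u, neg_zero, smul_zero,
        zero_add, smul_eq_mul] at h4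
      exact h4
    have hb0' : b = 0 := (mul_eq_zero.1 h3).resolve_right hzww
    rw [hb0', zero_smul, add_zero] at h0
    exact ⟨(smul_eq_zero.1 h0).resolve_right hu0, hb0'⟩
  have hcw : ∀ a b : ℂ, HasWt v (a • u + b • w) := fun a b => (hu.smul a).add (hww.smul b)
  have hvne : v ≠ 0 := by
    rintro rfl
    rw [inner_zero_left] at hpb
    exact lt_irrefl _ hpb
  -- the four matrices
  refine eight_le (U := U) (u := u) (w := w) ![1, xᴴ, yᴴ, xᴴ * yᴴ] ![v, v - b, v - c, -v]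
    ?_ ?_ ?_ ?_ ?_
  · have e1 : v ≠ v - b := fun h3 => hb0 (sub_eq_self.1 h3.symm)
    have e2 : v ≠ v - c := fun h3 => hc0 (sub_eq_self.1 h3.symm)
    have e3 : v ≠ -v := fun h3 => hvne (by
      have h4 : v + v = 0 := by
        nth_rewrite 1 [h3]
        exact neg_add_cancel v
      rw [← two_smul ℝ v] at h4
      exact (smul_eq_zero.1 h4).resolve_left two_ne_zero)
    have e4 : v - b ≠ v - c := by
      intro h3
      have h4 : b = c := sub_right_injective h3
      rw [h4] at hbc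
      exact hcc.ne' hbc
    have e5 : v - b ≠ -v := by
      intro h3
      have h4 : v + v = b := by
        have h5 : v + v = v - (-v) := by abel
        rw [h5, ← h3]
        abel
      rw [h2] at h4
      exact hc0 (by simpa using h4)
    have e6 : v - c ≠ -v := by
      intro h3
      have h4 : v + v = c := by
        have h5 : v + v = v - (-v) := by abel
        rw [h5, ← h3]
        abel
      rw [h2] at h4
      exact hb0 (by simpa using h4)
    intro m n hmn
    fin_cases m <;> fin_cases n <;>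
      first
      | rfl
      | exact absurd hmn e1
      | exact absurd hmn e2
      | exact absurd hmn e3
      | exact absurd hmn e4
      | exact absurd hmn e5
      | exact absurd hmn e6
      | exact absurd hmn.symm e1
      | exact absurd hmn.symm e2
      | exact absurd hmn.symm e3
      | exact absurd hmn.symm e4
      | exact absurd hmn.symm e5
      | exact absurd hmn.symm e6
  · intro n
    fin_cases n
    · show (1 : Matrix I I ℂ) *ᵥ u ∈ U
      rwa [Matrix.one_mulVec]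
    · exact hU.stab _ hxm _ huU
    · exact hU.stab _ hym _ huU
    · show (xᴴ * yᴴ) *ᵥ u ∈ U
      rw [← Matrix.mulVec_mulVec]
      exact hU.stab _ hxm _ (hU.stab _ hym _ huU)
  · intro n
    fin_cases n
    · show (1 : Matrix I I ℂ) *ᵥ w ∈ U
      rwa [Matrix.one_mulVec]
    · exact hU.stab _ hxm _ hwU
    · exact hU.stab _ hym _ hwU
    · show (xᴴ * yᴴ) *ᵥ w ∈ U
      rw [← Matrix.mulVec_mulVec]
      exact hU.stab _ hxm _ (hU.stab _ hym _ hwU)
  · intro n a b'
    fin_cases n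
    · show HasWt v ((1 : Matrix I I ℂ) *ᵥ (a • u + b' • w))
      rw [Matrix.one_mulVec]
      exact hcw a b'
    · exact hasWt_low hS hx hxb (hcw a b')
    · exact hasWt_low hS hy hyc (hcw a b')
    · show HasWt (-v) ((xᴴ * yᴴ) *ᵥ (a • u + b' • w))
      rw [← Matrix.mulVec_mulVec, ← hneg]
      exact hasWt_low hS hx hxb (hasWt_low hS hy hyc (hcw a b'))
  · intro n a b' h0
    refine hab a b' ?_
    by_contra hne0
    fin_cases n
    · change (1 : Matrix I I ℂ) *ᵥ (a • u + b' • w) = 0 at h0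
      rw [Matrix.one_mulVec] at h0
      exact hne0 h0
    · exact low_ne hS hx hxb (hcw a b') hpb hne0 h0
    · exact low_ne hS hy hyc (hcw a b') hpc hne0 h0
    · change (xᴴ * yᴴ) *ᵥ (a • u + b' • w) = 0 at h0
      rw [← Matrix.mulVec_mulVec] at h0
      exact low_ne hS hx hxb (hasWt_low hS hy hyc (hcw a b')) hpb'
        (low_ne hS hy hyc (hcw a b') hpc hne0) h0

/-- **The piece datum.** -/
theorem pieceSit (hS : Sit h κ) (hP : ∀ A ∈ h, A.transpose * P + P * A = 0)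
    (hPt : P.transpose = -P) (V : I → Submodule ℂ (I → ℂ)) (hV : ∀ l, Nice h P (V l))
    (hl : ∀ l, wt h l ∈ WtU h (V l)) :
    PieceSit (wt h) (Rt h κ) (fun l => WtU h (V l)) (fun l => finrank ℂ (V l)) :=
  ⟨hl, fun l _ hv => (hV l).neg hS hP hv, fun l _ hv _ ha hp => (hV l).mov hS hv ha hp,
    fun l F hF => card_le F hF,
    fun l b hb c hc hbc h2 hn => (hV l).par hS hP hPt (hl l) hb hc hbc h2 hn⟩

end Pool.Agent.Lib.MP_361a6f_ag.FL.E11
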